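import Pool.Agent.GKV.Rank
import Pool.Agent.GKR.Alg

/-!
# GKV Alg: the variations of a rational curve in `V` with two places on a very general family of sections

`x` polynomials with `F l (x) = 0`, `G m (x) = c m X ^ k m`; derivations `D` of `ℂ` which are trivial on the coefficients of the `F l` act on the coefficients (`cD`).  For all of them the vectors `x`, `X x'`, `D x` have rank at most two.
-/

set_option autoImplicit false

open Polynomial
open Pool.Agent.TC (det3 mD mD_zero_fun mD_sub_der mD_add_der mD_smul_der cD cD_add cD_mul cD_C cD_C_mul_X_pow natDegree_cD_le cD_sub_der cD_add_der cD_smul_der der_aeval)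

namespace Pool.Agent.GKV

variable {n r : ℕ} {a : Fin n → ℕ} {d k : Fin r → ℕ} {c : Fin r → ℂ} {F : Fin n → MvPolynomial (Fin (n + 3)) ℂ}
  {G : Fin r → MvPolynomial (Fin (n + 3)) ℂ} {x : Fin (n + 3) → ℂ[X]} {M : ℕ}

section Gr

variable {N : ℕ}

theorem gr_add (x : Fin N → ℂ[X]) (P : MvPolynomial (Fin N) ℂ) (v w : Fin N → ℂ[X]) : gr x P (v + w) = gr x P v + gr x P w := by
  unfold gr
  rw [← Finset.sum_add_distrib]
  refine Finset.sum_congr rfl fun j _ => ?_
  rw [Pi.add_apply, mul_add]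

theorem gr_smul (x : Fin N → ℂ[X]) (P : MvPolynomial (Fin N) ℂ) (q : ℂ[X]) (w : Fin N → ℂ[X]) : gr x P (q • w) = q * gr x P w := by
  unfold gr
  rw [Finset.mul_sum]
  refine Finset.sum_congr rfl fun j _ => ?_
  rw [Pi.smul_apply, smul_eq_mul]
  ring

/-- Euler -/
theorem gr_self {b : ℕ} {P : MvPolynomial (Fin N) ℂ} (hP : P.IsHomogeneous b) (x : Fin N → ℂ[X]) :
    gr x P x = C (b : ℂ) * MvPolynomial.aeval x P := by
  have h1 := hP.sum_X_mul_pderiv
  have h2 := congrArg (MvPolynomial.aeval x) h1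
  rw [map_sum, map_nsmul] at h2
  unfold gr
  calc ∑ j, MvPolynomial.aeval x (MvPolynomial.pderiv j P) * x j = ∑ j, MvPolynomial.aeval x (MvPolynomial.X j * MvPolynomial.pderiv j P) := by
        refine Finset.sum_congr rfl fun j _ => ?_
        rw [map_mul, MvPolynomial.aeval_X, mul_comm]
    _ = b • MvPolynomial.aeval x P := h2
    _ = C (b : ℂ) * MvPolynomial.aeval x P := by
      rw [nsmul_eq_mul, map_natCast]

/-- the logarithmic derivative -/
noncomputable def lx (x : Fin N → ℂ[X]) : Fin N → ℂ[X] := fun j => X * derivative (x j)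

theorem gr_lx (x : Fin N → ℂ[X]) (P : MvPolynomial (Fin N) ℂ) : gr x P (lx x) = X * derivative (MvPolynomial.aeval x P) := by
  have h1 := der_aeval (0 : Derivation ℚ ℂ ℂ) (δ := fun p : ℂ[X] => X * derivative p) (fun a b => by rw [derivative_add, mul_add])
    (fun a b => by
      rw [derivative_mul]
      ring)
    (fun c => by
      rw [Polynomial.algebraMap_eq, derivative_C, mul_zero]
      exact (map_zero C).symm) P x
  have h2 : mD (0 : Derivation ℚ ℂ ℂ) P = 0 := by
    ext β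
    rw [Pool.Agent.TC.coeff_mD, MvPolynomial.coeff_zero]
    rfl
  rw [h2, map_zero, zero_add] at h1
  exact h1.symm

theorem gr_cD (D : Derivation ℚ ℂ ℂ) (x : Fin N → ℂ[X]) (P : MvPolynomial (Fin N) ℂ) :
    gr x P (fun j => cD D (x j)) = cD D (MvPolynomial.aeval x P) - MvPolynomial.aeval x (mD D P) := by
  have h1 := der_aeval D (δ := cD D) (cD_add D) (cD_mul D) (fun c => cD_C D c) P x
  rw [h1]
  unfold gr
  ring

end Gr

theorem mD_sum {N : ℕ} {ι : Type*} (s : Finset ι) (E : ι → Derivation ℚ ℂ ℂ) (P : MvPolynomial (Fin N) ℂ) :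
    mD (∑ l ∈ s, E l) P = ∑ l ∈ s, mD (E l) P := by
  classical
  have hz : mD (0 : Derivation ℚ ℂ ℂ) P = 0 := by
    ext β
    rw [Pool.Agent.TC.coeff_mD, MvPolynomial.coeff_zero]
    rfl
  have ha : ∀ D D' : Derivation ℚ ℂ ℂ, mD (D + D') P = mD D P + mD D' P := by
    intro D D'
    ext β
    rw [Pool.Agent.TC.coeff_mD, MvPolynomial.coeff_add, Pool.Agent.TC.coeff_mD, Pool.Agent.TC.coeff_mD, Derivation.add_apply]
  induction s using Finset.induction_on with
  | empty =>
    rw [Finset.sum_empty, Finset.sum_empty]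
    exact hz
  | insert a s ha' ih' => rw [Finset.sum_insert ha', Finset.sum_insert ha', ha, ih']

theorem mD_sub' {N : ℕ} (D D' : Derivation ℚ ℂ ℂ) (P : MvPolynomial (Fin N) ℂ) : mD (D - D') P = mD D P - mD D' P := by
  ext β
  rw [Pool.Agent.TC.coeff_mD, MvPolynomial.coeff_sub, Pool.Agent.TC.coeff_mD, Pool.Agent.TC.coeff_mD, Derivation.sub_apply]

theorem mD_smul' {N : ℕ} (a : ℂ) (D : Derivation ℚ ℂ ℂ) (P : MvPolynomial (Fin N) ℂ) : mD (a • D) P = MvPolynomial.C a * mD D P := by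
  ext β
  rw [Pool.Agent.TC.coeff_mD, MvPolynomial.coeff_C_mul, Pool.Agent.TC.coeff_mD, Derivation.smul_apply, smul_eq_mul]

/-- `Λ w`: a minor of the matrix with the rows `x`, `X x'`, `w` -/
noncomputable def Lm (x : Fin (n + 3) → ℂ[X]) (s : Fin 3 → Fin (n + 3)) (w : Fin (n + 3) → ℂ[X]) : ℂ[X] :=
  det3 (fun q => x (s q)) (fun q => lx x (s q)) (fun q => w (s q))

theorem Lm_add (x : Fin (n + 3) → ℂ[X]) (s : Fin 3 → Fin (n + 3)) (v w : Fin (n + 3) → ℂ[X]) : Lm x s (v + w) = Lm x s v + Lm x s w := by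
  unfold Lm det3
  simp only [Pi.add_apply]
  ring

theorem Lm_smul (x : Fin (n + 3) → ℂ[X]) (s : Fin 3 → Fin (n + 3)) (q : ℂ[X]) (w : Fin (n + 3) → ℂ[X]) : Lm x s (q • w) = q * Lm x s w := by
  unfold Lm det3
  simp only [Pi.smul_apply, smul_eq_mul]
  ring

/-- `Λ` of the variation along a derivation of `ℂ` -/
noncomputable def lam (x : Fin (n + 3) → ℂ[X]) (s : Fin 3 → Fin (n + 3)) (D : Derivation ℚ ℂ ℂ) : ℂ[X] := Lm x s fun j => cD D (x j)

theorem lam_sub (x : Fin (n + 3) → ℂ[X]) (s : Fin 3 → Fin (n + 3)) (D D' : Derivation ℚ ℂ ℂ) : lam x s (D - D') = lam x s D - lam x s D' := by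
  unfold lam Lm det3
  simp only [cD_sub_der]
  ring

theorem lam_add (x : Fin (n + 3) → ℂ[X]) (s : Fin 3 → Fin (n + 3)) (D D' : Derivation ℚ ℂ ℂ) : lam x s (D + D') = lam x s D + lam x s D' := by
  unfold lam Lm det3
  simp only [cD_add_der]
  ring

theorem lam_smul (x : Fin (n + 3) → ℂ[X]) (s : Fin 3 → Fin (n + 3)) (a : ℂ) (D : Derivation ℚ ℂ ℂ) : lam x s (a • D) = C a * lam x s D := by
  unfold lam Lm det3
  simp only [cD_smul_der]
  ring

theorem lam_sum {ι : Type*} (u : Finset ι) (E : ι → Derivation ℚ ℂ ℂ) (x : Fin (n + 3) → ℂ[X]) (s : Fin 3 → Fin (n + 3)) :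
    lam x s (∑ l ∈ u, E l) = ∑ l ∈ u, lam x s (E l) := by
  classical
  induction u using Finset.induction_on with
  | empty =>
    rw [Finset.sum_empty, Finset.sum_empty]
    have := lam_sub x s 0 0
    rw [sub_self, sub_self] at this
    exact this
  | insert a u ha ih' => rw [Finset.sum_insert ha, Finset.sum_insert ha, lam_add, ih']

/-- the derivation is trivial on the coefficients of the `F l` -/
def Triv (F : Fin n → MvPolynomial (Fin (n + 3)) ℂ) (D : Derivation ℚ ℂ ℂ) : Prop := ∀ l, mD D (F l) = 0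

theorem Triv.sub {D D' : Derivation ℚ ℂ ℂ} (h : Triv F D) (h' : Triv F D') : Triv F (D - D') := fun l => by rw [mD_sub', h l, h' l, sub_self]

theorem Triv.smul {D : Derivation ℚ ℂ ℂ} (h : Triv F D) (a : ℂ) : Triv F (a • D) := fun l => by rw [mD_smul', h l, mul_zero]

theorem Triv.sum {ι : Type*} {u : Finset ι} {E : ι → Derivation ℚ ℂ ℂ} (h : ∀ l, Triv F (E l)) : Triv F (∑ l ∈ u, E l) := fun l => by
  rw [mD_sum]
  exact Finset.sum_eq_zero fun i _ => h i l

namespace CrvV

/-- the variation of a solution along a derivation of `ℂ` -/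
theorem gr_der (h : CrvV a d k c F G x M) (D : Derivation ℚ ℂ ℂ) (m : Fin r) :
    gr x (G m) (fun j => cD D (x j)) = C (D (c m) / c m) * MvPolynomial.aeval x (G m) - MvPolynomial.aeval x (mD D (G m)) := by
  rw [gr_cD, h.eq m, cD_C_mul_X_pow, ← mul_assoc, ← C_mul, div_mul_cancel₀ _ (h.ne m)]

theorem gr_derF (h : CrvV a d k c F G x M) {D : Derivation ℚ ℂ ℂ} (hD : Triv F D) (l : Fin n) : gr x (F l) (fun j => cD D (x j)) = 0 := by
  have h1 := cD_C D 0
  rw [C_0, map_zero, C_0] at h1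
  rw [gr_cD, h.zero l, hD l, map_zero, h1, sub_zero]

theorem logV_x (h : CrvV a d k c F G x M) : LogV F G x M M x := by
  refine ⟨h.deg, fun l => by rw [gr_self (h.homF l) x, h.zero, mul_zero], fun m => ⟨C (d m : ℂ), ?_, gr_self (h.hom m) x⟩⟩
  rw [natDegree_C]
  exact Nat.zero_le _

theorem natDegree_lx (h : CrvV a d k c F G x M) (i : Fin (n + 3)) : (lx x i).natDegree ≤ M := by
  unfold lx
  rw [natDegree_le_iff_coeff_eq_zero]
  intro n hn
  obtain ⟨n, rfl⟩ : ∃ n', n = n' + 1 := ⟨n - 1, by omega⟩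
  rw [coeff_X_mul, coeff_derivative, coeff_eq_zero_of_natDegree_lt (by have := h.deg i; omega), zero_mul]

theorem logV_lx (h : CrvV a d k c F G x M) : LogV F G x M M (lx x) := by
  refine ⟨h.natDegree_lx, fun l => by rw [gr_lx, h.zero, derivative_zero, mul_zero], fun m => ⟨C (k m : ℂ), ?_, ?_⟩⟩
  · rw [natDegree_C]
    exact Nat.zero_le _
  · rw [gr_lx, h.eq m, derivative_C_mul_X_pow, ← mul_assoc, mul_comm X, mul_assoc]
    rcases Nat.eq_zero_or_pos (k m) with h0 | h0
    · rw [h0]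
      simp
    · rw [← pow_succ', Nat.sub_add_cancel h0, C_mul]
      ring

theorem hlt (h : CrvV a d k c F G x M) (h5 : n + 5 ≤ ∑ l, a l + ∑ m, d m) (hM : 1 ≤ M) : 4 * M < (∑ m, d m) * M + ∑ l, (a l - 1) * M := by
  have h1 : ∑ l, (a l - 1) * M + n * M = (∑ l, a l) * M := by
    have h2 : ∑ l : Fin n, M = n * M := by simp
    rw [← h2, ← Finset.sum_add_distrib, Finset.sum_mul]
    refine Finset.sum_congr rfl fun l _ => ?_
    obtain ⟨b, hb⟩ := Nat.exists_eq_add_of_le' (h.posF l)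
    rw [hb]
    simp only [Nat.add_sub_cancel]
    ring
  have h2 : (n + 5) * M ≤ (∑ l, a l + ∑ m, d m) * M := Nat.mul_le_mul_right _ h5
  have h3 : (∑ l, a l + ∑ m, d m) * M = (∑ l, a l) * M + (∑ m, d m) * M := by ring
  have h4 : (n + 5) * M = n * M + 5 * M := by ring
  omega

/-- `Λ` vanishes on logarithmic vectors of weight `M` -/
theorem det_zero₁ (h : CrvV a d k c F G x M) (hr : 2 ≤ r) (h5 : n + 5 ≤ ∑ l, a l + ∑ m, d m) (hM : 1 ≤ M) (s : Fin 3 → Fin (n + 3))
    {w : Fin (n + 3) → ℂ[X]} (hw : LogV F G x M M w) : Lm x s w = 0 := by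
  have h1 := h.hlt h5 hM
  refine h.minor_zero hr (w := ![x, lx x, w]) (e := fun _ => M) (fun _ => le_rfl) (by omega) (fun i => ?_) s
  fin_cases i
  · exact h.logV_x
  · exact h.logV_lx
  · exact hw

/-- `Λ` vanishes on logarithmic vectors of weight `2 M` -/
theorem det_zero₂ (h : CrvV a d k c F G x M) (hr : 2 ≤ r) (h5 : n + 5 ≤ ∑ l, a l + ∑ m, d m) (hM : 1 ≤ M) (s : Fin 3 → Fin (n + 3))
    {w : Fin (n + 3) → ℂ[X]} (hw : LogV F G x M (2 * M) w) : Lm x s w = 0 := by
  have h1 := h.hlt h5 hM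
  refine h.minor_zero hr (w := ![x, lx x, w]) (e := ![M, M, 2 * M]) (fun i => ?_) ?_ (fun i => ?_) s
  · fin_cases i
    · exact le_rfl
    · exact le_rfl
    · show M ≤ 2 * M
      omega
  · show M + M + 2 * M < _
    omega
  · fin_cases i
    · exact h.logV_x
    · exact h.logV_lx
    · exact hw

/-- if `(D G m) (x) = q G m (x)` with constants `q` then `Λ (D x) = 0` -/
theorem lam_eq_zero (h : CrvV a d k c F G x M) (hr : 2 ≤ r) (h5 : n + 5 ≤ ∑ l, a l + ∑ m, d m) (hM : 1 ≤ M) (s : Fin 3 → Fin (n + 3))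
    {D : Derivation ℚ ℂ ℂ} (hT : Triv F D) (hD : ∀ m, ∃ q : ℂ, MvPolynomial.aeval x (mD D (G m)) = C q * MvPolynomial.aeval x (G m)) : lam x s D = 0 := by
  refine h.det_zero₁ hr h5 hM s ⟨fun i => (natDegree_cD_le D _).trans (h.deg i), h.gr_derF hT, fun m => ?_⟩
  obtain ⟨q, hq⟩ := hD m
  refine ⟨C (D (c m) / c m - q), by rw [natDegree_C]; exact Nat.zero_le _, ?_⟩
  rw [h.gr_der, hq, C_sub]
  ring

/-- the main relation -/
theorem lam_swap (h : CrvV a d k c F G x M) (hr : 2 ≤ r) (h5 : n + 5 ≤ ∑ l, a l + ∑ m, d m) (hM : 1 ≤ M) (s : Fin 3 → Fin (n + 3))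
    {D D' : Derivation ℚ ℂ ℂ} (hT : Triv F D) (hT' : Triv F D') (j l : Fin (n + 3))
    (hD : ∀ m, x j * MvPolynomial.aeval x (mD D (G m)) = x l * MvPolynomial.aeval x (mD D' (G m))) : x j * lam x s D = x l * lam x s D' := by
  have h1 : LogV F G x M (2 * M) ((x j • fun i => cD D (x i)) + (-x l) • fun i => cD D' (x i)) := by
    refine ⟨fun i => ?_, fun q => ?_, fun m => ?_⟩
    · rw [Pi.add_apply, Pi.smul_apply, Pi.smul_apply, smul_eq_mul, smul_eq_mul]
      refine (natDegree_add_le _ _).trans (max_le ?_ ?_)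
      · refine natDegree_mul_le.trans ?_
        have h1 := h.deg j
        have h2 := (natDegree_cD_le D (x i)).trans (h.deg i)
        omega
      · refine natDegree_mul_le.trans ?_
        rw [natDegree_neg]
        have h1 := h.deg l
        have h2 := (natDegree_cD_le D' (x i)).trans (h.deg i)
        omega
    · rw [gr_add, gr_smul, gr_smul, h.gr_derF hT, h.gr_derF hT', mul_zero, mul_zero, add_zero]
    · refine ⟨C (D (c m) / c m) * x j - C (D' (c m) / c m) * x l, ?_, ?_⟩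
      · refine (natDegree_sub_le _ _).trans (max_le ?_ ?_)
        · refine (natDegree_C_mul_le _ _).trans ?_
          have h1 := h.deg j
          omega
        · refine (natDegree_C_mul_le _ _).trans ?_
          have h1 := h.deg l
          omega
      · rw [gr_add, gr_smul, gr_smul, h.gr_der, h.gr_der]
        linear_combination -(hD m)
  have h2 := h.det_zero₂ hr h5 hM s h1
  rw [Lm_add, Lm_smul, Lm_smul] at h2
  have h3 : x j * lam x s D + -x l * lam x s D' = 0 := h2
  linear_combination h3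

/-- `Λ (D x)` depends only on the derivatives of the forms `G m` -/
theorem lam_congr (h : CrvV a d k c F G x M) (hr : 2 ≤ r) (h5 : n + 5 ≤ ∑ l, a l + ∑ m, d m) (hM : 1 ≤ M) (s : Fin 3 → Fin (n + 3))
    {D D' : Derivation ℚ ℂ ℂ} (hT : Triv F D) (hT' : Triv F D') (hD : ∀ m, mD D (G m) = mD D' (G m)) : lam x s D = lam x s D' := by
  have h1 : lam x s (D - D') = 0 := by
    refine h.lam_eq_zero hr h5 hM s (hT.sub hT') fun m => ⟨0, ?_⟩
    rw [mD_sub', hD, sub_self, map_zero, C_0, zero_mul]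
  rw [lam_sub] at h1
  exact sub_eq_zero.1 h1

end CrvV

/-- the family of forms with one entry `P` -/
noncomputable def slot (m : Fin r) (P : MvPolynomial (Fin (n + 3)) ℂ) : Fin r → MvPolynomial (Fin (n + 3)) ℂ := fun l => if l = m then P else 0

theorem slot_hom {m : Fin r} {P : MvPolynomial (Fin (n + 3)) ℂ} (hP : P.IsHomogeneous (d m)) (l : Fin r) : (slot m P l).IsHomogeneous (d l) := by
  unfold slot
  split_ifs with h
  · rw [h]
    exact hP
  · exact MvPolynomial.isHomogeneous_zero _ _ _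

namespace CrvV

/-- the induction: `x_o ^ b Λ (D_{B X_o ^ e}) = B (x) Λ (D_{X_o ^ (b + e)})` for forms `B` of degree `b` -/
theorem lam_pow (h : CrvV a d k c F G x M) (hr : 2 ≤ r) (h5 : n + 5 ≤ ∑ l, a l + ∑ m, d m) (hM : 1 ≤ M) (s : Fin 3 → Fin (n + 3))
    (o : Fin (n + 3)) (m : Fin r) {D₀ : Derivation ℚ ℂ ℂ} (hT₀ : Triv F D₀) (hD₀ : ∀ l, mD D₀ (G l) = slot m (MvPolynomial.X o ^ d m) l) :
    ∀ (b e : ℕ), b + e = d m → ∀ B : MvPolynomial (Fin (n + 3)) ℂ, B.IsHomogeneous b → ∀ D : Derivation ℚ ℂ ℂ, Triv F D →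
      (∀ l, mD D (G l) = slot m (B * MvPolynomial.X o ^ e) l) → x o ^ b * lam x s D = MvPolynomial.aeval x B * lam x s D₀ := by
  intro b
  induction b with
  | zero =>
    intro e he B hB D hT hD
    obtain ⟨b, rfl⟩ : ∃ b : ℂ, B = MvPolynomial.C b := ⟨_, MvPolynomial.totalDegree_eq_zero_iff_eq_C.1 (Nat.le_zero.1 hB.totalDegree_le)⟩
    have h1 : lam x s D = lam x s (b • D₀) := by
      refine h.lam_congr hr h5 hM s hT (hT₀.smul b) fun l => ?_
      rw [hD, mD_smul', hD₀]
      unfold slot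
      split_ifs
      · rw [← he, zero_add]
      · rw [mul_zero]
    rw [h1, lam_smul, pow_zero, one_mul, MvPolynomial.aeval_C]
    rfl
  | succ b ih =>
    intro e he B hB D hT hD
    have hB' : ∀ l, (MvPolynomial.pderiv l B).IsHomogeneous b := fun l => hB.pderiv
    have hX : ∀ (l : Fin (n + 3)) (q : ℕ), (MvPolynomial.X l ^ q : MvPolynomial (Fin (n + 3)) ℂ).IsHomogeneous q := fun l q => by
      have := (MvPolynomial.isHomogeneous_X ℂ l).pow q
      rwa [one_mul] at this
    have hE : ∀ l, ∃ E : Derivation ℚ ℂ ℂ, Triv F E ∧ ∀ i, mD E (G i) = slot m (MvPolynomial.pderiv l B * MvPolynomial.X o ^ (e + 1)) i := fun l =>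
      h.gen.exists_der h.hom _ (slot_hom (by
        have := (hB' l).mul (hX o (e + 1))
        rwa [show b + (e + 1) = d m by omega] at this))
    have hE' : ∀ l, ∃ E : Derivation ℚ ℂ ℂ, Triv F E ∧ ∀ i, mD E (G i) = slot m (MvPolynomial.pderiv l B * MvPolynomial.X l * MvPolynomial.X o ^ e) i := fun l =>
      h.gen.exists_der h.hom _ (slot_hom (by
        have := ((hB' l).mul (MvPolynomial.isHomogeneous_X ℂ l)).mul (hX o e)
        rwa [show b + 1 + e = d m by omega] at this))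
    choose E hTE hE using hE
    choose E' hTE' hE' using hE'
    have h1 : ∀ l, x o * lam x s (E' l) = x l * lam x s (E l) := by
      intro l
      refine h.lam_swap hr h5 hM s (hTE' l) (hTE l) o l fun i => ?_
      rw [hE, hE']
      unfold slot
      split_ifs
      · simp only [map_mul, map_pow, MvPolynomial.aeval_X]
        ring
      · simp
    have h2 : ∀ l, x o ^ b * lam x s (E l) = MvPolynomial.aeval x (MvPolynomial.pderiv l B) * lam x s D₀ := fun l =>
      ih (e + 1) (by omega) _ (hB' l) (E l) (hTE l) (hE l)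
    have h3 : C ((b + 1 : ℕ) : ℂ) * lam x s D = ∑ l, lam x s (E' l) := by
      have h4 : lam x s (((b + 1 : ℕ) : ℂ) • D) = lam x s (∑ l, E' l) := by
        refine h.lam_congr hr h5 hM s (hT.smul _) (Triv.sum hTE') fun i => ?_
        rw [mD_sum, mD_smul', hD, Finset.sum_congr rfl fun l _ => hE' l i]
        unfold slot
        split_ifs
        · rw [← Finset.sum_mul]
          have h6 : ∑ l, MvPolynomial.pderiv l B * MvPolynomial.X l = MvPolynomial.C ((b + 1 : ℕ) : ℂ) * B := by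
            have h7 := hB.sum_X_mul_pderiv
            rw [nsmul_eq_mul] at h7
            rw [map_natCast, ← h7]
            exact Finset.sum_congr rfl fun l _ => mul_comm _ _
          rw [h6]
          ring
        · simp
      rw [lam_smul] at h4
      rw [h4]
      exact lam_sum _ _ _ _
    have h4 : C ((b + 1 : ℕ) : ℂ) * (x o ^ (b + 1) * lam x s D) = C ((b + 1 : ℕ) : ℂ) * (MvPolynomial.aeval x B * lam x s D₀) := by
      have h6 : ∑ l, x l * MvPolynomial.aeval x (MvPolynomial.pderiv l B) = C ((b + 1 : ℕ) : ℂ) * MvPolynomial.aeval x B := by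
        rw [← gr_self hB x]
        unfold gr
        exact Finset.sum_congr rfl fun l _ => mul_comm _ _
      calc C ((b + 1 : ℕ) : ℂ) * (x o ^ (b + 1) * lam x s D) = x o ^ (b + 1) * (C ((b + 1 : ℕ) : ℂ) * lam x s D) := by ring
        _ = ∑ l, x o ^ b * (x o * lam x s (E' l)) := by
          rw [h3, Finset.mul_sum]
          refine Finset.sum_congr rfl fun l _ => ?_
          ring
        _ = ∑ l, x l * MvPolynomial.aeval x (MvPolynomial.pderiv l B) * lam x s D₀ := by
          refine Finset.sum_congr rfl fun l _ => ?_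
          rw [h1 l, mul_assoc (x l), ← h2 l]
          ring
        _ = C ((b + 1 : ℕ) : ℂ) * (MvPolynomial.aeval x B * lam x s D₀) := by
          rw [← Finset.sum_mul, h6]
          ring
    have h5 : (C ((b + 1 : ℕ) : ℂ) : ℂ[X]) ≠ 0 := by
      rw [Ne, C_eq_zero]
      exact_mod_cast Nat.succ_ne_zero b
    exact mul_left_cancel₀ h5 h4

/-- `Λ (D x) = 0` for all derivations with `D G_l = 0` for `l ≠ m` -/
theorem lam_slot (h : CrvV a d k c F G x M) (hr : 2 ≤ r) (h5 : n + 5 ≤ ∑ l, a l + ∑ m, d m) (hM : 1 ≤ M) (s : Fin 3 → Fin (n + 3)) (m : Fin r)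
    {P : MvPolynomial (Fin (n + 3)) ℂ} (hP : P.IsHomogeneous (d m)) {D : Derivation ℚ ℂ ℂ} (hT : Triv F D) (hD : ∀ l, mD D (G l) = slot m P l) :
    lam x s D = 0 := by
  obtain ⟨o, ho⟩ := h.low
  have hxo : x o ≠ 0 := by
    intro h0
    rw [h0, coeff_zero] at ho
    exact ho rfl
  have hX : (MvPolynomial.X o ^ d m : MvPolynomial (Fin (n + 3)) ℂ).IsHomogeneous (d m) := by
    have := (MvPolynomial.isHomogeneous_X ℂ o).pow (d m)
    rwa [one_mul] at this
  obtain ⟨D₀, hT₀, hD₀⟩ := h.gen.exists_der h.hom _ (slot_hom hX)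
  have key : ∀ (B : MvPolynomial (Fin (n + 3)) ℂ), B.IsHomogeneous (d m) → ∀ D : Derivation ℚ ℂ ℂ, Triv F D → (∀ l, mD D (G l) = slot m B l) →
      x o ^ d m * lam x s D = MvPolynomial.aeval x B * lam x s D₀ := by
    intro B hB D hT hD
    refine h.lam_pow hr h5 hM s o m hT₀ hD₀ (d m) 0 (by omega) B hB D hT fun l => ?_
    rw [hD, pow_zero, mul_one]
  obtain ⟨D₁, hT₁, hD₁⟩ := h.gen.exists_der h.hom _ (slot_hom (h.hom m))
  have h1 := key _ (h.hom m) D₁ hT₁ hD₁
  have h2 : lam x s D₁ = 0 := by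
    refine h.lam_eq_zero hr h5 hM s hT₁ fun l => ?_
    rw [hD₁]
    unfold slot
    split_ifs with hl
    · subst hl
      exact ⟨1, by rw [C_1, one_mul]⟩
    · exact ⟨0, by rw [map_zero, C_0, zero_mul]⟩
  have h3 : lam x s D₀ = 0 := by
    rw [h2, mul_zero] at h1
    refine (mul_eq_zero.1 h1.symm).resolve_left ?_
    rw [h.eq m]
    exact mul_ne_zero (by rw [Ne, C_eq_zero]; exact h.ne m) (pow_ne_zero _ X_ne_zero)
  have h4 := key _ hP D hT hD
  rw [h3, mul_zero] at h4
  exact (mul_eq_zero.1 h4).resolve_left (pow_ne_zero _ hxo)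

end CrvV

end Pool.Agent.GKV
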