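import Mathlib

/-!
# GKV Blk: determinants of `n + 3` vectors with `n + 3` coordinates, `3` of them orthogonal to `n` covectors
-/

set_option autoImplicit false

open Polynomial

namespace Pool.Agent.GKV

variable {n : ℕ}

/-- the index set of the variables -/
def eq3 (n : ℕ) : Fin (n + 3) ≃ Fin 3 ⊕ Fin n := (finCongr (add_comm n 3)).trans finSumFinEquiv.symm

section Ring

variable {R : Type} [CommRing R]

/-- the matrix with the rows `w i`, `Y l` -/
def rows (w : Fin 3 → Fin (n + 3) → R) (Y : Fin n → Fin (n + 3) → R) : Matrix (Fin 3 ⊕ Fin n) (Fin 3 ⊕ Fin n) R :=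
  Matrix.of fun i j => Sum.elim w Y i ((eq3 n).symm j)

/-- the determinant of the vectors `w i`, `Y l` -/
noncomputable def D3 (w : Fin 3 → Fin (n + 3) → R) (Y : Fin n → Fin (n + 3) → R) : R := (rows w Y).det

/-- the pairings -/
def pr {ι κ : Type} (w : ι → Fin (n + 3) → R) (u : κ → Fin (n + 3) → R) : Matrix ι κ R := Matrix.of fun i i' => ∑ j, w i j * u i' j

theorem blk {w u : Fin 3 → Fin (n + 3) → R} {Y f : Fin n → Fin (n + 3) → R} (h : ∀ i l, ∑ j, w i j * f l j = 0) :
    D3 w Y * D3 u f = (pr w u).det * (pr Y f).det := by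
  unfold D3
  rw [← Matrix.det_transpose (rows u f), ← Matrix.det_mul]
  have h1 : rows w Y * (rows u f).transpose = Matrix.fromBlocks (pr w u) 0 (pr Y u) (pr Y f) := by
    ext i j
    have h2 : (rows w Y * (rows u f).transpose) i j = ∑ s, Sum.elim w Y i s * Sum.elim u f j s := by
      rw [Matrix.mul_apply]
      exact Equiv.sum_comp (eq3 n).symm fun s => Sum.elim w Y i s * Sum.elim u f j s
    rw [h2]
    rcases i with i | i <;> rcases j with j | j
    · rfl
    · exact h i j
    · rfl
    · rfl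
  rw [h1, Matrix.det_fromBlocks_zero₁₂]

theorem D3_map {S : Type} [CommRing S] (φ : R →+* S) (w : Fin 3 → Fin (n + 3) → R) (Y : Fin n → Fin (n + 3) → R) :
    D3 (fun i j => φ (w i j)) (fun l j => φ (Y l j)) = φ (D3 w Y) := by
  unfold D3
  rw [RingHom.map_det]
  congr 1
  ext i j
  rcases i with i | i <;> rfl

theorem pr_map {S : Type} [CommRing S] (φ : R →+* S) {ι : Type} [Fintype ι] [DecidableEq ι] (w : ι → Fin (n + 3) → R) (u : ι → Fin (n + 3) → R) :
    (pr (fun i j => φ (w i j)) (fun i j => φ (u i j))).det = φ (pr w u).det := by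
  rw [RingHom.map_det]
  congr 1
  ext i j
  simp [pr, map_sum, map_mul]

end Ring

section Field

variable {K : Type} [Field K]

theorem D3_ne {u : Fin 3 → Fin (n + 3) → K} {f : Fin n → Fin (n + 3) → K}
    (h : ∀ (β : Fin 3 → K) (α : Fin n → K), (∀ j, ∑ i, β i * u i j + ∑ l, α l * f l j = 0) → β = 0 ∧ α = 0) : D3 u f ≠ 0 := by
  intro h0
  obtain ⟨c, hc, hc'⟩ := Matrix.exists_vecMul_eq_zero_iff.2 h0
  have h1 := h (fun i => c (Sum.inl i)) (fun l => c (Sum.inr l)) fun j => by
    have h2 := congrFun hc' (eq3 n j)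
    rw [Pi.zero_apply] at h2
    rw [← h2]
    simp only [Matrix.vecMul, dotProduct, Fintype.sum_sum_type]
    congr 1
    · refine Finset.sum_congr rfl fun i _ => ?_
      simp [rows]
    · refine Finset.sum_congr rfl fun i _ => ?_
      simp [rows]
  apply hc
  funext s
  rcases s with i | l
  · exact congrFun h1.1 i
  · exact congrFun h1.2 l

/-- independent covectors are part of a basis -/
theorem exists_D3 {f : Fin n → Fin (n + 3) → K} (hf : LinearIndependent K f) : ∃ u : Fin 3 → Fin (n + 3) → K, D3 u f ≠ 0 := by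
  have hd : Module.finrank K (Fin (n + 3) → K) = n + 3 := by rw [Module.finrank_fin_fun]
  obtain ⟨x₃, h₃⟩ := exists_linearIndependent_cons_of_lt_finrank hf (by rw [hd]; omega)
  obtain ⟨x₂, h₂⟩ := exists_linearIndependent_cons_of_lt_finrank h₃ (by rw [hd]; omega)
  obtain ⟨x₁, h₁⟩ := exists_linearIndependent_cons_of_lt_finrank h₂ (by rw [hd]; omega)
  refine ⟨![x₁, x₂, x₃], D3_ne fun β α h => ?_⟩
  rw [Fintype.linearIndependent_iff] at h₁
  have h4 := h₁ (Fin.cons (β 0) (Fin.cons (β 1) (Fin.cons (β 2) α))) (by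
    funext j
    have h5 := h j
    rw [Finset.sum_apply, Pi.zero_apply, Fin.sum_univ_succ, Fin.sum_univ_succ, Fin.sum_univ_succ]
    rw [Fin.sum_univ_three] at h5
    simp only [Fin.cons_zero, Fin.cons_succ, Pi.smul_apply, smul_eq_mul]
    rw [← h5]
    simp only [Matrix.cons_val_zero, Matrix.cons_val_one, Matrix.cons_val]
    ring)
  constructor
  · funext i
    fin_cases i
    · exact h4 0
    · exact h4 1
    · exact h4 2
  · funext l
    exact h4 l.succ.succ.succ

/-- vectors dual to independent covectors -/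
theorem exists_pr {f : Fin n → Fin (n + 3) → K} (hf : LinearIndependent K f) : ∃ Y : Fin n → Fin (n + 3) → K, (pr Y f).det ≠ 0 := by
  obtain ⟨u, hu⟩ := exists_D3 hf
  have hunit : IsUnit (rows u f).det := isUnit_iff_ne_zero.2 hu
  have h1 : rows u f * (rows u f)⁻¹ = 1 := Matrix.mul_nonsing_inv _ hunit
  refine ⟨fun l j => (rows u f)⁻¹ (eq3 n j) (Sum.inr l), ?_⟩
  have h2 : pr (fun (l : Fin n) (j : Fin (n + 3)) => (rows u f)⁻¹ (eq3 n j) (Sum.inr l)) f = 1 := by
    ext l l'
    have h3 := congrFun (congrFun h1 (Sum.inr l')) (Sum.inr l)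
    rw [Matrix.mul_apply] at h3
    have h4 : pr (fun (l : Fin n) (j : Fin (n + 3)) => (rows u f)⁻¹ (eq3 n j) (Sum.inr l)) f l l' =
        ∑ s, rows u f (Sum.inr l') s * (rows u f)⁻¹ s (Sum.inr l) := by
      rw [← Equiv.sum_comp (eq3 n)]
      show ∑ j : Fin (n + 3), _ * _ = _
      refine Finset.sum_congr rfl fun j _ => ?_
      rw [mul_comm]
      simp [rows]
    rw [h4, h3, Matrix.one_apply, Matrix.one_apply]
    by_cases h5 : l = l'
    · subst h5
      simp
    · rw [if_neg h5, if_neg]
      intro h6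
      exact h5 (Sum.inr_injective h6).symm
  rw [h2, Matrix.det_one]
  exact one_ne_zero

/-- two independent covectors more -/
theorem exists_D3_two {u₁ u₂ : Fin (n + 3) → K} {f : Fin n → Fin (n + 3) → K}
    (h : ∀ (α : Fin n → K) (s t : K), (∀ j, ∑ l, α l * f l j + (s * u₁ j + t * u₂ j) = 0) → α = 0 ∧ s = 0 ∧ t = 0) :
    ∃ o : Fin (n + 3), D3 ![Pi.single o 1, u₁, u₂] f ≠ 0 := by
  classical
  by_contra hcon
  push Not at hcon
  have key : ∀ o : Fin (n + 3), (Pi.single o 1 : Fin (n + 3) → K) ∈ Submodule.span K (Set.range (Sum.elim ![u₁, u₂] f)) := by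
    intro o
    by_contra hno
    refine D3_ne (u := ![Pi.single o 1, u₁, u₂]) (f := f) (fun β α h1 => ?_) (hcon o)
    have h2 : β 0 = 0 := by
      by_contra hβ
      apply hno
      have h3 : (Pi.single o 1 : Fin (n + 3) → K) = ∑ s : Fin 2 ⊕ Fin n, (Sum.elim ![-(β 1) / β 0, -(β 2) / β 0] (fun l => -(α l) / β 0) s) •
          (Sum.elim ![u₁, u₂] f s) := by
        funext j
        have h4 := h1 j
        rw [Fin.sum_univ_three] at h4
        rw [Finset.sum_apply, Fintype.sum_sum_type, Fin.sum_univ_two]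
        simp only [Matrix.cons_val_zero, Matrix.cons_val_one, Matrix.cons_val, Sum.elim_inl, Sum.elim_inr, Pi.smul_apply, smul_eq_mul] at h4 ⊢
        have h5 : ∑ l, -(α l) / β 0 * f l j = -(∑ l, α l * f l j) / β 0 := by
          rw [← Finset.sum_neg_distrib, Finset.sum_div]
          refine Finset.sum_congr rfl fun l _ => ?_
          ring
        rw [h5]
        have h6 : ∑ l, α l * f l j = -(β 0 * (Pi.single o 1 : Fin (n + 3) → K) j + β 1 * u₁ j + β 2 * u₂ j) := by
          linear_combination h4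
        rw [h6]
        field_simp
        ring
      rw [h3]
      exact Submodule.sum_mem _ fun s _ => Submodule.smul_mem _ _ (Submodule.subset_span ⟨s, rfl⟩)
    have h3 := h α (β 1) (β 2) fun j => by
      have h4 := h1 j
      rw [Fin.sum_univ_three] at h4
      simp only [Matrix.cons_val_zero, Matrix.cons_val_one, Matrix.cons_val] at h4
      rw [h2] at h4
      linear_combination h4
    refine ⟨?_, h3.1⟩
    funext i
    fin_cases i
    · exact h2
    · exact h3.2.1
    · exact h3.2.2
  have htop : Submodule.span K (Set.range (Sum.elim ![u₁, u₂] f)) = ⊤ := by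
    rw [eq_top_iff]
    intro v _
    have h1 : v = ∑ o, v o • (Pi.single o 1 : Fin (n + 3) → K) := by
      funext j
      rw [Finset.sum_apply]
      simp [Pi.single_apply]
    rw [h1]
    exact Submodule.sum_mem _ fun o _ => Submodule.smul_mem _ _ (key o)
  have h1 := finrank_range_le_card (R := K) (Sum.elim ![u₁, u₂] f)
  have h2 : (Set.range (Sum.elim ![u₁, u₂] f)).finrank K = n + 3 := by
    unfold Set.finrank
    rw [htop, finrank_top, Module.finrank_fin_fun]
  rw [h2, Fintype.card_sum, Fintype.card_fin, Fintype.card_fin] at h1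
  omega

end Field

section Deg

theorem prod_top {ι : Type} (s : Finset ι) (p : ι → ℂ[X]) (b : ι → ℕ) (h : ∀ i ∈ s, (p i).natDegree ≤ b i) :
    (∏ i ∈ s, p i).natDegree ≤ ∑ i ∈ s, b i ∧ (∏ i ∈ s, p i).coeff (∑ i ∈ s, b i) = ∏ i ∈ s, (p i).coeff (b i) := by
  classical
  induction s using Finset.induction_on with
  | empty => simp
  | insert a s ha ih =>
    obtain ⟨h1, h2⟩ := ih fun i hi => h i (Finset.mem_insert_of_mem hi)
    have h3 := h a (Finset.mem_insert_self a s)
    rw [Finset.prod_insert ha, Finset.sum_insert ha, Finset.prod_insert ha]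
    exact ⟨natDegree_mul_le_of_le h3 h1, by rw [coeff_mul_add_eq_of_natDegree_le h3 h1, h2]⟩

/-- determinants of matrices of polynomials whose rows have bounded degrees -/
theorem det_top {ι : Type} [Fintype ι] [DecidableEq ι] (A : Matrix ι ι ℂ[X]) (b : ι → ℕ) (h : ∀ i j, (A i j).natDegree ≤ b i) :
    A.det.natDegree ≤ ∑ i, b i ∧ A.det.coeff (∑ i, b i) = (Matrix.of fun i j => (A i j).coeff (b i)).det := by
  have key : ∀ σ : Equiv.Perm ι, (∏ i, A (σ i) i).natDegree ≤ ∑ i, b i ∧
      (∏ i, A (σ i) i).coeff (∑ i, b i) = ∏ i, (A (σ i) i).coeff (b (σ i)) := by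
    intro σ
    have h1 := prod_top Finset.univ (fun i => A (σ i) i) (fun i => b (σ i)) fun i _ => h _ _
    rwa [Equiv.sum_comp σ b] at h1
  rw [Matrix.det_apply, Matrix.det_apply]
  constructor
  · refine natDegree_sum_le_of_forall_le _ _ fun σ _ => ?_
    refine le_trans ?_ (key σ).1
    rcases Int.units_eq_one_or (Equiv.Perm.sign σ) with h1 | h1
    · rw [h1, one_smul]
    · rw [h1, Units.neg_smul, one_smul, natDegree_neg]
  · rw [finsetSum_coeff]
    refine Finset.sum_congr rfl fun σ _ => ?_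
    rcases Int.units_eq_one_or (Equiv.Perm.sign σ) with h1 | h1
    · rw [h1, one_smul, one_smul, (key σ).2]
      rfl
    · rw [h1, Units.neg_smul, Units.neg_smul, one_smul, one_smul, coeff_neg, (key σ).2]
      rfl

end Deg

end Pool.Agent.GKV
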