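import Pool.Agent.TC.GKChain

/-!
# GKV Gen: families of forms whose coefficients are algebraically independent over the field generated by the coefficients of other forms
-/

set_option autoImplicit false

namespace Pool.Agent.GKV

open TensorProduct

/-- derivations of `ℂ` over a subfield with prescribed values on an algebraically independent family -/
theorem exists_derivation (K : IntermediateField ℚ ℂ) {ι : Type} {a : ι → ℂ} (ha : AlgebraicIndependent K a) (v : ι → ℂ) :
    ∃ D : Derivation ℚ ℂ ℂ, (∀ z ∈ K, D z = 0) ∧ ∀ i, D (a i) = v i := by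
  classical
  obtain ⟨s, hs, hB⟩ := exists_isTranscendenceBasis_superset (R := K) (A := ℂ) (s := Set.range a)
    ((algebraicIndependent_subtype_range ha.injective).2 ha)
  let φ : MvPolynomial s K →ₐ[K] ℂ := MvPolynomial.aeval ((↑) : s → ℂ)
  let : Algebra (MvPolynomial s K) ℂ := φ.toRingHom.toAlgebra
  have hφ : ∀ p : MvPolynomial s K, algebraMap (MvPolynomial s K) ℂ p = φ p := fun p => rfl
  have : IsScalarTower K (MvPolynomial s K) ℂ := IsScalarTower.of_algebraMap_eq fun q => by
    rw [hφ, AlgHom.commutes]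
  have hinj : Function.Injective (algebraMap (MvPolynomial s K) ℂ) := hB.1
  have : FaithfulSMul (MvPolynomial s K) ℂ := (faithfulSMul_iff_algebraMap_injective _ _).2 hinj
  let : Algebra (FractionRing (MvPolynomial s K)) ℂ := FractionRing.liftAlgebra (MvPolynomial s K) ℂ
  have : IsScalarTower (MvPolynomial s K) (FractionRing (MvPolynomial s K)) ℂ :=
    FractionRing.isScalarTower_liftAlgebra (MvPolynomial s K) ℂ
  have : Algebra.IsAlgebraic (MvPolynomial s K) ℂ := by
    have h1 := hB.isAlgebraic
    refine ⟨fun z => ?_⟩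
    have h2 := h1.isAlgebraic z
    refine h2.of_ringHom_of_comp_eq (hB.1.aevalEquiv : MvPolynomial s K →+* _) (RingHom.id ℂ) ?_ ?_ ?_
    · exact hB.1.aevalEquiv.surjective
    · exact Function.injective_id
    · ext p <;> simp [hφ, φ]
  have : Algebra.IsAlgebraic (FractionRing (MvPolynomial s K)) ℂ :=
    (IsFractionRing.comap_isAlgebraic_iff (A := MvPolynomial s K) (K := FractionRing (MvPolynomial s K)) (C := ℂ)).1 inferInstance
  have : CharZero (FractionRing (MvPolynomial s K)) :=
    charZero_of_injective_algebraMap (algebraMap K (FractionRing (MvPolynomial s K))).injective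
  have : Algebra.FormallyEtale (FractionRing (MvPolynomial s K)) ℂ := Algebra.FormallyEtale.of_isSeparable _ _
  have : Algebra.FormallyEtale (MvPolynomial s K) (FractionRing (MvPolynomial s K)) :=
    Algebra.FormallyEtale.of_isLocalization (nonZeroDivisors (MvPolynomial s K))
  have : Algebra.FormallyEtale (MvPolynomial s K) ℂ := Algebra.FormallyEtale.comp _ (FractionRing (MvPolynomial s K)) _
  -- the derivation of the polynomials with values in `ℂ`
  let w : s → ℂ := fun b => if h : ∃ i, a i = b then v h.choose else 0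
  let δ : Derivation K (MvPolynomial s K) ℂ := MvPolynomial.mkDerivation K w
  let l : Ω[MvPolynomial s K⁄K] →ₗ[MvPolynomial s K] ℂ := δ.liftKaehlerDifferential
  let e := KaehlerDifferential.tensorKaehlerEquivOfFormallyEtale K (MvPolynomial s K) ℂ
  let l' : Ω[ℂ⁄K] →ₗ[ℂ] ℂ := (l.liftBaseChange ℂ).comp e.symm.toLinearMap
  refine ⟨(l'.compDer (KaehlerDifferential.D K ℂ)).restrictScalars ℚ, fun z hz => ?_, fun i => ?_⟩
  · exact (l'.compDer (KaehlerDifferential.D K ℂ)).map_algebraMap (⟨z, hz⟩ : K)
  have hi : a i = algebraMap (MvPolynomial s K) ℂ (MvPolynomial.X ⟨a i, hs ⟨i, rfl⟩⟩) := by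
    rw [hφ]
    simp [φ]
  rw [hi]
  change l.liftBaseChange ℂ (e.symm (KaehlerDifferential.D K ℂ (algebraMap (MvPolynomial s K) ℂ (MvPolynomial.X ⟨a i, hs ⟨i, rfl⟩⟩)))) = _
  rw [KaehlerDifferential.tensorKaehlerEquivOfFormallyEtale_symm_D_algebraMap, LinearMap.liftBaseChange_tmul, one_smul]
  change δ.liftKaehlerDifferential (KaehlerDifferential.D K (MvPolynomial s K) (MvPolynomial.X ⟨a i, hs ⟨i, rfl⟩⟩)) = _
  rw [Derivation.liftKaehlerDifferential_comp_D, MvPolynomial.mkDerivation_X]
  have h1 : ∃ j, a j = a i := ⟨i, rfl⟩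
  show w ⟨a i, _⟩ = v i
  simp only [w]
  rw [dif_pos h1]
  exact congrArg v (ha.injective h1.choose_spec)

open MvPolynomial
open Pool.Agent.TC (mD coeff_mD der_aeval)

variable {N n r : ℕ} {a : Fin n → ℕ} {d : Fin r → ℕ} {F : Fin n → MvPolynomial (Fin N) ℂ} {G : Fin r → MvPolynomial (Fin N) ℂ}

/-- the field generated by the coefficients of the forms `F l` -/
noncomputable def coeffField (F : Fin n → MvPolynomial (Fin N) ℂ) : IntermediateField ℚ ℂ :=
  IntermediateField.adjoin ℚ {z | ∃ l β, z = coeff β (F l)}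

/-- The coefficients of the forms `G m` (of degrees `d m`) are algebraically independent over the field of the coefficients of the `F l`. -/
def Generic (F : Fin n → MvPolynomial (Fin N) ℂ) (d : Fin r → ℕ) (G : Fin r → MvPolynomial (Fin N) ℂ) : Prop :=
  AlgebraicIndependent (coeffField F) fun i : Σ m : Fin r, {β : Fin N →₀ ℕ // β.degree = d m} => coeff i.2.1 (G i.1)

/-- every family of forms is the derivative of the family `G` for some derivation of `ℂ` which is trivial on the coefficients of `F` -/
theorem Generic.exists_der (hG : Generic F d G) (hom : ∀ m, (G m).IsHomogeneous (d m)) (H : Fin r → MvPolynomial (Fin N) ℂ)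
    (hH : ∀ m, (H m).IsHomogeneous (d m)) : ∃ D : Derivation ℚ ℂ ℂ, (∀ l, mD D (F l) = 0) ∧ ∀ m, mD D (G m) = H m := by
  obtain ⟨D, hD0, hD⟩ := exists_derivation _ hG fun i => coeff i.2.1 (H i.1)
  refine ⟨D, fun l => ?_, fun m => ?_⟩
  · ext β
    rw [coeff_mD, coeff_zero]
    exact hD0 _ (IntermediateField.subset_adjoin ℚ _ ⟨l, β, rfl⟩)
  · ext β
    rw [coeff_mD]
    by_cases hβ : β.degree = d m
    · exact hD ⟨m, β, hβ⟩
    · rw [(hom m).coeff_eq_zero hβ, (hH m).coeff_eq_zero hβ, map_zero]

theorem der_eval (D : Derivation ℚ ℂ ℂ) (P : MvPolynomial (Fin N) ℂ) (p : Fin N → ℂ) :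
    D (eval p P) = eval p (mD D P) + ∑ j, eval p (pderiv j P) * D (p j) := by
  have h2 := der_aeval D (δ := fun z => D z) (fun a b => map_add D a b) (fun a b => by
    rw [Derivation.leibniz, smul_eq_mul, smul_eq_mul]) (fun c => rfl) P p
  simp only [MvPolynomial.aeval_eq_eval] at h2
  exact h2

/-- the gradients of the `F l` and of those `G m` which vanish at a point are linearly independent -/
theorem Generic.nc (hG : Generic F d G) (hom : ∀ m, (G m).IsHomogeneous (d m)) {p : Fin N → ℂ} (hp : p ≠ 0) (hFp : ∀ l, eval p (F l) = 0)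
    (hsm : LinearIndependent ℂ fun (l : Fin n) (j : Fin N) => eval p (pderiv j (F l))) {α : Fin n → ℂ} {β : Fin r → ℂ}
    (h0 : ∀ m, β m = 0 ∨ eval p (G m) = 0)
    (hs : ∀ j, ∑ l, α l * eval p (pderiv j (F l)) + ∑ m, β m * eval p (pderiv j (G m)) = 0) : α = 0 ∧ β = 0 := by
  classical
  obtain ⟨o, ho⟩ : ∃ o, p o ≠ 0 := by
    by_contra hcon
    push Not at hcon
    exact hp (funext hcon)
  have hβ : β = 0 := by
    funext m
    obtain ⟨D, hDF, hD⟩ := hG.exists_der hom (fun l => if l = m then X o ^ d l else 0) (fun l => by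
      split_ifs
      · have := (isHomogeneous_X ℂ o).pow (d l)
        rwa [one_mul] at this
      · exact isHomogeneous_zero _ _ _)
    have h1 : ∀ l, β l * (eval p (mD D (G l)) + ∑ j, eval p (pderiv j (G l)) * D (p j)) = 0 := by
      intro l
      rcases h0 l with h | h
      · rw [h, zero_mul]
      · rw [← der_eval, h, map_zero, mul_zero]
    have h1' : ∀ l, ∑ j, eval p (pderiv j (F l)) * D (p j) = 0 := by
      intro l
      have h2 := der_eval D (F l) p
      rw [hFp, hDF, map_zero, map_zero, zero_add] at h2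
      exact h2.symm
    have h2 : ∑ l, β l * eval p (mD D (G l)) = 0 := by
      have h3 : ∑ j, (∑ l, α l * eval p (pderiv j (F l)) + ∑ m, β m * eval p (pderiv j (G m))) * D (p j) = 0 :=
        Finset.sum_eq_zero fun j _ => by rw [hs j, zero_mul]
      have h4 : ∑ j, (∑ l, α l * eval p (pderiv j (F l)) + ∑ m, β m * eval p (pderiv j (G m))) * D (p j) =
          ∑ l, α l * ∑ j, eval p (pderiv j (F l)) * D (p j) + ∑ m, β m * ∑ j, eval p (pderiv j (G m)) * D (p j) := by
        simp only [add_mul, Finset.sum_add_distrib, Finset.sum_mul, Finset.mul_sum]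
        congr 1
        · rw [Finset.sum_comm]
          refine Finset.sum_congr rfl fun l _ => Finset.sum_congr rfl fun j _ => ?_
          ring
        · rw [Finset.sum_comm]
          refine Finset.sum_congr rfl fun l _ => Finset.sum_congr rfl fun j _ => ?_
          ring
      rw [h4] at h3
      have h5 : ∑ l, α l * ∑ j, eval p (pderiv j (F l)) * D (p j) = 0 := Finset.sum_eq_zero fun l _ => by rw [h1' l, mul_zero]
      rw [h5, zero_add] at h3
      have h6 : ∑ l, β l * (eval p (mD D (G l)) + ∑ j, eval p (pderiv j (G l)) * D (p j)) = 0 := Finset.sum_eq_zero fun l _ => h1 l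
      simp only [mul_add, Finset.sum_add_distrib] at h6
      rwa [h3, add_zero] at h6
    rw [Finset.sum_eq_single m] at h2
    · rw [hD] at h2
      simp only [if_pos, map_pow, eval_X] at h2
      exact (mul_eq_zero.1 h2).resolve_right (pow_ne_zero _ ho)
    · intro l _ hl
      rw [hD]
      simp only [if_neg hl, map_zero, mul_zero]
    · intro h
      exact absurd (Finset.mem_univ _) h
  refine ⟨?_, hβ⟩
  rw [Fintype.linearIndependent_iff] at hsm
  funext l
  refine hsm α ?_ l
  funext j
  rw [Finset.sum_apply, Pi.zero_apply, ← hs j]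
  simp only [hβ, Pi.zero_apply, zero_mul, Finset.sum_const_zero, add_zero, Pi.smul_apply, smul_eq_mul]

theorem euler_eval {b : ℕ} {P : MvPolynomial (Fin N) ℂ} (hP : P.IsHomogeneous b) (p : Fin N → ℂ) :
    ∑ j, p j * eval p (pderiv j P) = b * eval p P := by
  have h1 := congrArg (eval p) hP.sum_X_mul_pderiv
  rw [map_sum, map_nsmul, nsmul_eq_mul] at h1
  rw [← h1]
  refine Finset.sum_congr rfl fun j _ => ?_
  rw [map_mul, eval_X]

/-- two of the curves: at a point of one of them the gradients are linearly independent -/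
theorem Generic.nc₂ (hG : Generic F d G) (homF : ∀ l, (F l).IsHomogeneous (a l)) (hom : ∀ m, (G m).IsHomogeneous (d m)) (pos : ∀ m, 1 ≤ d m)
    {m m' : Fin r} (hmn : m ≠ m') {p : Fin N → ℂ} (hp : p ≠ 0) (hFp : ∀ l, eval p (F l) = 0)
    (hsm : LinearIndependent ℂ fun (l : Fin n) (j : Fin N) => eval p (pderiv j (F l)))
    (h0 : eval p (G m) = 0 ∨ eval p (G m') = 0) {α : Fin n → ℂ} {s t : ℂ}
    (hst : ∀ j, ∑ l, α l * eval p (pderiv j (F l)) + (s * eval p (pderiv j (G m)) + t * eval p (pderiv j (G m'))) = 0) : α = 0 ∧ s = 0 ∧ t = 0 := by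
  classical
  have h1 : s * (d m * eval p (G m)) + t * (d m' * eval p (G m')) = 0 := by
    have h2 : ∑ j, p j * (∑ l, α l * eval p (pderiv j (F l)) + (s * eval p (pderiv j (G m)) + t * eval p (pderiv j (G m')))) = 0 :=
      Finset.sum_eq_zero fun j _ => by rw [hst j, mul_zero]
    have h3 : ∑ j, p j * (∑ l, α l * eval p (pderiv j (F l)) + (s * eval p (pderiv j (G m)) + t * eval p (pderiv j (G m')))) =
        ∑ l, α l * ∑ j, p j * eval p (pderiv j (F l)) + (s * ∑ j, p j * eval p (pderiv j (G m)) + t * ∑ j, p j * eval p (pderiv j (G m'))) := by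
      simp only [mul_add, Finset.sum_add_distrib, Finset.mul_sum]
      congr 1
      · rw [Finset.sum_comm]
        refine Finset.sum_congr rfl fun l _ => Finset.sum_congr rfl fun j _ => ?_
        ring
      · congr 1
        · refine Finset.sum_congr rfl fun j _ => ?_
          ring
        · refine Finset.sum_congr rfl fun j _ => ?_
          ring
    rw [h3] at h2
    simp only [euler_eval (homF _), euler_eval (hom _), hFp, mul_zero, Finset.sum_const_zero, zero_add] at h2
    exact h2
  have hd : ∀ m, (d m : ℂ) ≠ 0 := fun m => by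
    have := pos m
    exact_mod_cast (by omega : d m ≠ 0)
  have h2 : (s = 0 ∨ eval p (G m) = 0) ∧ (t = 0 ∨ eval p (G m') = 0) := by
    rcases h0 with h0 | h0
    · rw [h0, mul_zero, mul_zero, zero_add] at h1
      refine ⟨Or.inr h0, ?_⟩
      rcases mul_eq_zero.1 h1 with h2 | h2
      · exact Or.inl h2
      · exact Or.inr ((mul_eq_zero.1 h2).resolve_left (hd m'))
    · rw [h0, mul_zero, mul_zero, add_zero] at h1
      refine ⟨?_, Or.inr h0⟩
      rcases mul_eq_zero.1 h1 with h2 | h2
      · exact Or.inl h2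
      · exact Or.inr ((mul_eq_zero.1 h2).resolve_left (hd m))
  have h3 := hG.nc hom hp hFp hsm (α := α) (β := fun l => if l = m then s else if l = m' then t else 0) (fun l => ?_) (fun j => ?_)
  · have h4 := congrFun h3.2 m
    have h5 := congrFun h3.2 m'
    simp only [if_pos, if_neg hmn.symm, Pi.zero_apply] at h4 h5
    exact ⟨h3.1, h4, h5⟩
  · by_cases h4 : l = m
    · subst h4
      simp only [if_pos]
      exact h2.1
    · by_cases h5 : l = m'
      · subst h5
        simp only [if_neg h4, if_pos]
        exact h2.2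
      · simp only [if_neg h4, if_neg h5]
        exact Or.inl trivial
  · refine Eq.trans ?_ (hst j)
    congr 1
    rw [← Finset.sum_subset (Finset.subset_univ ({m, m'} : Finset (Fin r))), Finset.sum_pair hmn]
    · simp only [if_pos, if_neg hmn.symm]
    · intro l _ hl
      rw [Finset.mem_insert, Finset.mem_singleton, not_or] at hl
      simp only [if_neg hl.1, if_neg hl.2, zero_mul]

end Pool.Agent.GKV
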