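import Pool.Agent.GKV.Blk
import Pool.Agent.GKV.Gen

/-!
# GKV Det: logarithmic vectors along a rational curve in `V` with two places on the curves `G m = 0`

`V = {F l = 0}` is a smooth complete intersection surface in `ℙ^(n+2)`.  For three logarithmic vectors `w i` of weights `e i` and constant vectors `Y l`: `det (w, Y) = μ det (Y · ∇ F)` with a polynomial `μ`;
`X ^ (∑ k m) ∣ μ` and `deg μ + (∑ d m) M + ∑ (a l - 1) M ≤ ∑ e i + ∑ k m` if `μ ≠ 0`.
-/

set_option autoImplicit false

open Polynomial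

namespace Pool.Agent.GKV

section Gr

variable {N : ℕ}

/-- the value of the differential of `P` at the point `x` on the vector `w` -/
noncomputable def gr (x : Fin N → ℂ[X]) (P : MvPolynomial (Fin N) ℂ) (w : Fin N → ℂ[X]) : ℂ[X] :=
  ∑ j, MvPolynomial.aeval x (MvPolynomial.pderiv j P) * w j

/-- the degree and the highest coefficient of a form along `x` -/
theorem coeff_top {x : Fin N → ℂ[X]} {M : ℕ} (hx : ∀ i, (x i).natDegree ≤ M) {P : MvPolynomial (Fin N) ℂ} {b : ℕ} (hP : P.IsHomogeneous b) :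
    (MvPolynomial.aeval x P).natDegree ≤ b * M ∧ (MvPolynomial.aeval x P).coeff (b * M) = MvPolynomial.eval (fun i => (x i).coeff M) P := by
  have hd : ∀ s ∈ P.support, ∑ i, s i = b := by
    intro s hs
    have h2 : s.degree = b := by
      by_contra hne
      exact MvPolynomial.mem_support_iff.1 hs (hP.coeff_eq_zero hne)
    rwa [Finsupp.degree_eq_sum] at h2
  have hterm : ∀ s ∈ P.support, (C (P.coeff s) * ∏ i, x i ^ s i).natDegree ≤ b * M ∧
      (C (P.coeff s) * ∏ i, x i ^ s i).coeff (b * M) = P.coeff s * ∏ i, (x i).coeff M ^ s i := by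
    intro s hs
    have h1 := prod_top Finset.univ (fun i => x i ^ s i) (fun i => s i * M) fun i _ => natDegree_pow_le_of_le (s i) (hx i)
    rw [← Finset.sum_mul, hd s hs] at h1
    refine ⟨(natDegree_C_mul_le _ _).trans h1.1, ?_⟩
    rw [coeff_C_mul, h1.2]
    congr 1
    exact Finset.prod_congr rfl fun i _ => coeff_pow_of_natDegree_le (hx i)
  have hE : MvPolynomial.aeval x P = ∑ s ∈ P.support, C (P.coeff s) * ∏ i, x i ^ s i := by
    rw [MvPolynomial.aeval_def, MvPolynomial.eval₂_eq']
    rfl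
  constructor
  · rw [hE]
    exact natDegree_sum_le_of_forall_le _ _ fun s hs => (hterm s hs).1
  · rw [hE, finsetSum_coeff, MvPolynomial.eval_eq']
    exact Finset.sum_congr rfl fun s hs => (hterm s hs).2

theorem eval_aeval (x : Fin N → ℂ[X]) (P : MvPolynomial (Fin N) ℂ) (t : ℂ) :
    (MvPolynomial.aeval x P).eval t = MvPolynomial.eval (fun i => (x i).eval t) P := by
  have h : ((Polynomial.evalRingHom t : ℂ[X] →+* ℂ).comp (MvPolynomial.aeval x : MvPolynomial (Fin N) ℂ →ₐ[ℂ] ℂ[X]).toRingHom) =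
      (MvPolynomial.eval (fun i => (x i).eval t) : MvPolynomial (Fin N) ℂ →+* ℂ) := by
    apply MvPolynomial.ringHom_ext
    · intro r
      simp
    · intro i
      simp
  exact RingHom.congr_fun h P

end Gr

variable {n r : ℕ} {a : Fin n → ℕ} {d k : Fin r → ℕ} {c : Fin r → ℂ} {F : Fin n → MvPolynomial (Fin (n + 3)) ℂ}
  {G : Fin r → MvPolynomial (Fin (n + 3)) ℂ} {x : Fin (n + 3) → ℂ[X]} {M : ℕ}

/-- a rational curve in `V = {F l = 0}` with at most two places on the curves `G m = 0` -/
structure CrvV (a : Fin n → ℕ) (d k : Fin r → ℕ) (c : Fin r → ℂ) (F : Fin n → MvPolynomial (Fin (n + 3)) ℂ)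
    (G : Fin r → MvPolynomial (Fin (n + 3)) ℂ) (x : Fin (n + 3) → ℂ[X]) (M : ℕ) : Prop where
  homF : ∀ l, (F l).IsHomogeneous (a l)
  posF : ∀ l, 1 ≤ a l
  hom : ∀ m, (G m).IsHomogeneous (d m)
  pos : ∀ m, 1 ≤ d m
  zero : ∀ l, MvPolynomial.aeval x (F l) = 0
  eq : ∀ m, MvPolynomial.aeval x (G m) = C (c m) * X ^ k m
  ne : ∀ m, c m ≠ 0
  deg : ∀ i, (x i).natDegree ≤ M
  low : ∃ i, (x i).coeff 0 ≠ 0
  top : ∃ i, (x i).coeff M ≠ 0
  smooth : ∀ p : Fin (n + 3) → ℂ, p ≠ 0 → (∀ l, MvPolynomial.eval p (F l) = 0) →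
    LinearIndependent ℂ fun (l : Fin n) (j : Fin (n + 3)) => MvPolynomial.eval p (MvPolynomial.pderiv j (F l))
  gen : Generic F d G

/-- logarithmic vectors of weight `e` -/
def LogV (F : Fin n → MvPolynomial (Fin (n + 3)) ℂ) (G : Fin r → MvPolynomial (Fin (n + 3)) ℂ) (x : Fin (n + 3) → ℂ[X]) (M e : ℕ)
    (w : Fin (n + 3) → ℂ[X]) : Prop :=
  (∀ i, (w i).natDegree ≤ e) ∧ (∀ l, gr x (F l) w = 0) ∧ ∀ m, ∃ g : ℂ[X], g.natDegree ≤ e - M ∧ gr x (G m) w = g * MvPolynomial.aeval x (G m)

/-- the gradients along the curve -/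
noncomputable def gf (P : MvPolynomial (Fin (n + 3)) ℂ) (x : Fin (n + 3) → ℂ[X]) : Fin (n + 3) → ℂ[X] := fun j => MvPolynomial.aeval x (MvPolynomial.pderiv j P)

/-- the gradient at a point -/
noncomputable def gp (P : MvPolynomial (Fin (n + 3)) ℂ) (p : Fin (n + 3) → ℂ) : Fin (n + 3) → ℂ := fun j => MvPolynomial.eval p (MvPolynomial.pderiv j P)

/-- constant vectors -/
noncomputable def cst {ι : Type} (Y : ι → Fin (n + 3) → ℂ) : ι → Fin (n + 3) → ℂ[X] := fun l j => C (Y l j)

theorem gf_eval (P : MvPolynomial (Fin (n + 3)) ℂ) (x : Fin (n + 3) → ℂ[X]) (t : ℂ) (j : Fin (n + 3)) :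
    (evalRingHom t) (gf P x j) = gp P (fun i => (x i).eval t) j := eval_aeval x _ t

theorem mul_gf (P : MvPolynomial (Fin (n + 3)) ℂ) (x w : Fin (n + 3) → ℂ[X]) : ∑ j, w j * gf P x j = gr x P w := by
  unfold gr
  exact Finset.sum_congr rfl fun j _ => mul_comm _ _

namespace CrvV

theorem ptne (h : CrvV a d k c F G x M) (hr : 1 ≤ r) (t : ℂ) : (fun i => (x i).eval t) ≠ 0 := by
  intro h0
  by_cases ht : t = 0
  · obtain ⟨i, hi⟩ := h.low
    apply hi
    have h1 := congrFun h0 i
    rw [ht] at h1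
    rw [coeff_zero_eq_eval_zero]
    exact h1
  · have h1 := congrArg (Polynomial.eval t) (h.eq ⟨0, hr⟩)
    rw [eval_aeval, h0, eval_mul, eval_C, eval_pow, eval_X] at h1
    have h2 : MvPolynomial.eval (0 : Fin (n + 3) → ℂ) (G ⟨0, hr⟩) = 0 := by
      rw [show (0 : Fin (n + 3) → ℂ) = fun _ => 0 from rfl, MvPolynomial.eval_zero', MvPolynomial.constantCoeff_eq]
      exact (h.hom _).coeff_eq_zero (by
        rw [map_zero]
        have := h.pos ⟨0, hr⟩
        omega)
    rw [h2] at h1
    exact (mul_ne_zero (h.ne _) (pow_ne_zero _ ht)) h1.symm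

theorem onV (h : CrvV a d k c F G x M) (t : ℂ) (l : Fin n) : MvPolynomial.eval (fun i => (x i).eval t) (F l) = 0 := by
  rw [← eval_aeval, h.zero, eval_zero]

theorem ind (h : CrvV a d k c F G x M) (hr : 1 ≤ r) (t : ℂ) : LinearIndependent ℂ fun l => gp (F l) (fun i => (x i).eval t) :=
  h.smooth _ (h.ptne hr t) (h.onV t)

/-- the point at infinity -/
theorem topne (h : CrvV a d k c F G x M) : (fun i => (x i).coeff M) ≠ 0 := by
  obtain ⟨i, hi⟩ := h.top
  exact fun e => hi (congrFun e i)

theorem top_onV (h : CrvV a d k c F G x M) (l : Fin n) : MvPolynomial.eval (fun i => (x i).coeff M) (F l) = 0 := by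
  rw [← (coeff_top h.deg (h.homF l)).2, h.zero, coeff_zero]

theorem top_ind (h : CrvV a d k c F G x M) : LinearIndependent ℂ fun l => gp (F l) (fun i => (x i).coeff M) :=
  h.smooth _ h.topne h.top_onV

theorem kle (h : CrvV a d k c F G x M) (m : Fin r) : k m ≤ d m * M := by
  have h1 := (coeff_top h.deg (h.hom m)).1
  rwa [h.eq m, natDegree_C_mul_X_pow _ _ (h.ne m)] at h1

end CrvV

/-- no three of the curves have a common point on `V` -/
theorem Generic.no_triple (hG : Generic F d G) (homF : ∀ l, (F l).IsHomogeneous (a l)) (hom : ∀ m, (G m).IsHomogeneous (d m)) {q m m' : Fin r} (hqm : q ≠ m) (hqm' : q ≠ m')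
    (hmm' : m ≠ m') {p : Fin (n + 3) → ℂ} (hp : p ≠ 0) (hFp : ∀ l, MvPolynomial.eval p (F l) = 0)
    (hsm : LinearIndependent ℂ fun (l : Fin n) (j : Fin (n + 3)) => MvPolynomial.eval p (MvPolynomial.pderiv j (F l))) :
    ¬ (MvPolynomial.eval p (G q) = 0 ∧ MvPolynomial.eval p (G m) = 0 ∧ MvPolynomial.eval p (G m') = 0) := by
  classical
  rintro ⟨hq, hm, hm'⟩
  have hne : D3 ![gp (G q) p, gp (G m) p, gp (G m') p] (fun l => gp (F l) p) ≠ 0 := by
    refine D3_ne fun β α h1 => ?_
    have h3 := hG.nc hom hp hFp hsm (α := α) (β := fun s => if s = q then β 0 else if s = m then β 1 else if s = m' then β 2 else 0) (fun s => ?_)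
      (fun j => ?_)
    · refine ⟨?_, h3.1⟩
      funext i
      fin_cases i
      · have h4 := congrFun h3.2 q
        simpa using h4
      · have h4 := congrFun h3.2 m
        simpa [hqm.symm] using h4
      · have h4 := congrFun h3.2 m'
        simpa [hqm'.symm, hmm'.symm] using h4
    · by_cases h4 : s = q
      · subst h4
        exact Or.inr hq
      · by_cases h5 : s = m
        · subst h5
          exact Or.inr hm
        · by_cases h6 : s = m'
          · subst h6
            exact Or.inr hm'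
          · left
            simp only [if_neg h4, if_neg h5, if_neg h6]
    · have h4 := h1 j
      rw [Fin.sum_univ_three] at h4
      simp only [Matrix.cons_val_zero, Matrix.cons_val_one, Matrix.cons_val] at h4
      rw [add_comm] at h4
      refine Eq.trans ?_ h4
      congr 1
      rw [← Finset.sum_subset (Finset.subset_univ ({q, m, m'} : Finset (Fin r)))]
      · rw [Finset.sum_insert (by simp [hqm, hqm']), Finset.sum_pair hmm']
        simp only [if_pos, if_neg hqm.symm, if_neg hqm'.symm, if_neg hmm'.symm]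
        unfold gp
        ring
      · intro s _ hs
        rw [Finset.mem_insert, Finset.mem_insert, Finset.mem_singleton, not_or, not_or] at hs
        simp only [if_neg hs.1, if_neg hs.2.1, if_neg hs.2.2, zero_mul]
  apply hne
  refine Matrix.exists_mulVec_eq_zero_iff.1 ⟨fun s => p ((eq3 n).symm s), ?_, ?_⟩
  · intro h0
    apply hp
    funext j
    have h1 := congrFun h0 (eq3 n j)
    simpa using h1
  · have he : ∀ {b : ℕ} {P : MvPolynomial (Fin (n + 3)) ℂ}, P.IsHomogeneous b → MvPolynomial.eval p P = 0 → ∑ j, gp P p j * p j = 0 := by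
      intro b P hP h0
      have h1 := euler_eval hP p
      rw [h0, mul_zero] at h1
      rw [← h1]
      exact Finset.sum_congr rfl fun j _ => mul_comm _ _
    funext s
    have h2 : (rows ![gp (G q) p, gp (G m) p, gp (G m') p] (fun l => gp (F l) p)).mulVec (fun s => p ((eq3 n).symm s)) s =
        ∑ j, Sum.elim ![gp (G q) p, gp (G m) p, gp (G m') p] (fun l => gp (F l) p) s j * p j :=
      Equiv.sum_comp (eq3 n).symm fun j => Sum.elim ![gp (G q) p, gp (G m) p, gp (G m') p] (fun l => gp (F l) p) s j * p j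
    rw [h2]
    rcases s with i | l
    · fin_cases i
      · exact he (hom q) hq
      · exact he (hom m) hm
      · exact he (hom m') hm'
    · exact he (homF l) (hFp l)

end Pool.Agent.GKV
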