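import Pool.Agent.GKV.Alg
import Pool.Agent.TC.GKEnd

/-!
# GKV End: no rational curve in `V` with at most two places on a very general family of sections
-/

set_option autoImplicit false

open Polynomial
open Pool.Agent.TC (det3 mD cD natDegree_cD_le prop_of_cross coeff_X_mul_derivative)

namespace Pool.Agent.GKV

variable {n r : ℕ} {a : Fin n → ℕ} {d k : Fin r → ℕ} {c : Fin r → ℂ} {F : Fin n → MvPolynomial (Fin (n + 3)) ℂ}
  {G : Fin r → MvPolynomial (Fin (n + 3)) ℂ} {x : Fin (n + 3) → ℂ[X]} {M : ℕ}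

namespace CrvV

theorem gr_lx_G (h : CrvV a d k c F G x M) (m : Fin r) : gr x (G m) (lx x) = C (k m : ℂ) * MvPolynomial.aeval x (G m) := by
  rw [gr_lx, h.eq m, derivative_C_mul_X_pow, ← mul_assoc, mul_comm X, mul_assoc]
  rcases Nat.eq_zero_or_pos (k m) with h0 | h0
  · rw [h0]
    simp
  · rw [← pow_succ', Nat.sub_add_cancel h0, C_mul]
    ring

theorem star (h : CrvV a d k c F G x M) (hr : 2 ≤ r) (h5 : n + 5 ≤ ∑ l, a l + ∑ m, d m) (hM : 1 ≤ M) {i j : Fin (n + 3)}
    (hW : x i * lx x j - x j * lx x i ≠ 0) {m m' : Fin r} (hmm' : m ≠ m') (o p : Fin (n + 3)) :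
    ∃ (α β γ : ℂ) (E : ℂ[X]), E.natDegree ≤ M ∧ C α * MvPolynomial.aeval x (G m) * E = C β * MvPolynomial.aeval x (G m) * x p +
      (C γ * MvPolynomial.aeval x (G m) - C (d m' : ℂ) * x o ^ d m) * (C (d m' : ℂ) * lx x p - C (k m' : ℂ) * x p) := by
  have hX : (MvPolynomial.X o ^ d m : MvPolynomial (Fin (n + 3)) ℂ).IsHomogeneous (d m) := by
    have := (MvPolynomial.isHomogeneous_X ℂ o).pow (d m)
    rwa [one_mul] at this
  obtain ⟨D, hT, hD⟩ := h.gen.exists_der h.hom _ (slot_hom hX)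
  obtain ⟨W, hWdef⟩ : ∃ W, W = x i * lx x j - x j * lx x i := ⟨_, rfl⟩
  obtain ⟨A, hA⟩ : ∃ A, A = cD D (x i) * lx x j - cD D (x j) * lx x i := ⟨_, rfl⟩
  obtain ⟨B, hB⟩ : ∃ B, B = x i * cD D (x j) - x j * cD D (x i) := ⟨_, rfl⟩
  rw [← hWdef] at hW
  have h1 : ∀ q, W * cD D (x q) = A * x q + B * lx x q := by
    intro q
    have h2 := h.lam_slot hr h5 hM ![i, j, q] m hX hT hD
    unfold lam Lm det3 at h2
    simp only [Matrix.cons_val_zero, Matrix.cons_val_one, Matrix.cons_val] at h2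
    rw [hWdef, hA, hB]
    linear_combination h2
  have h2 : ∀ q : Fin r, W * gr x (G q) (fun j => cD D (x j)) = A * (C (d q : ℂ) * MvPolynomial.aeval x (G q)) + B * (C (k q : ℂ) * MvPolynomial.aeval x (G q)) := by
    intro q
    have h3 : (W • fun j => cD D (x j)) = A • x + B • lx x := by
      funext j
      rw [Pi.smul_apply, Pi.add_apply, Pi.smul_apply, Pi.smul_apply, smul_eq_mul, smul_eq_mul, smul_eq_mul]
      exact h1 j
    have h4 := congrArg (gr x (G q)) h3
    rw [gr_smul, gr_add, gr_smul, gr_smul, gr_self (h.hom q), h.gr_lx_G] at h4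
    exact h4
  have hm := h2 m
  have hm' := h2 m'
  rw [h.gr_der, hD] at hm hm'
  unfold slot at hm hm'
  rw [if_pos rfl, map_pow, MvPolynomial.aeval_X] at hm
  rw [if_neg hmm'.symm, map_zero, sub_zero] at hm'
  have hg' : MvPolynomial.aeval x (G m') ≠ 0 := by
    rw [h.eq m']
    exact mul_ne_zero (by rw [Ne, C_eq_zero]; exact h.ne m') (pow_ne_zero _ X_ne_zero)
  have hq' : W * C (D (c m') / c m') = A * C (d m' : ℂ) + B * C (k m' : ℂ) := by
    refine mul_right_cancel₀ hg' ?_
    linear_combination hm'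
  obtain ⟨q, hq⟩ : ∃ q, q = D (c m) / c m := ⟨_, rfl⟩
  obtain ⟨q', hq''⟩ : ∃ q', q' = D (c m') / c m' := ⟨_, rfl⟩
  rw [← hq] at hm
  rw [← hq''] at hq'
  obtain ⟨g, hg⟩ : ∃ g, g = MvPolynomial.aeval x (G m) := ⟨_, rfl⟩
  rw [← hg] at hm ⊢
  -- `B δ g = W (κ g - d' P)`
  have h3 : B * (C (k m : ℂ) * C (d m' : ℂ) - C (k m' : ℂ) * C (d m : ℂ)) * g =
      W * ((C (d m' : ℂ) * C q - C (d m : ℂ) * C q') * g - C (d m' : ℂ) * x o ^ d m) := by
    linear_combination (-C (d m' : ℂ)) * hm + (C (d m : ℂ) * g) * hq'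
  refine ⟨(d m' : ℂ) * ((k m : ℂ) * (d m' : ℂ) - (k m' : ℂ) * (d m : ℂ)), q' * ((k m : ℂ) * (d m' : ℂ) - (k m' : ℂ) * (d m : ℂ)),
    (d m' : ℂ) * q - (d m : ℂ) * q', cD D (x p), (natDegree_cD_le D _).trans (h.deg p), ?_⟩
  refine mul_left_cancel₀ hW ?_
  simp only [C_mul, C_sub]
  linear_combination (C (d m' : ℂ) * (C (k m : ℂ) * C (d m' : ℂ) - C (k m' : ℂ) * C (d m : ℂ)) * g) * h1 p +
    (-(C (k m : ℂ) * C (d m' : ℂ) - C (k m' : ℂ) * C (d m : ℂ)) * g * x p) * hq' + (C (d m' : ℂ) * lx x p - C (k m' : ℂ) * x p) * h3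

theorem coeff_lin (x : Fin (n + 3) → ℂ[X]) (p : Fin (n + 3)) (s t : ℂ) (i : ℕ) :
    (C s * lx x p - C t * x p).coeff i = (s * i - t) * (x p).coeff i := by
  rw [coeff_sub, coeff_C_mul, coeff_C_mul]
  unfold lx
  rw [coeff_X_mul_derivative]
  ring

/-- the coefficients at `0` -/
theorem coeff_low (h : CrvV a d k c F G x M) (hr : 2 ≤ r) (h5 : n + 5 ≤ ∑ l, a l + ∑ m, d m) (hM : 1 ≤ M) {i j : Fin (n + 3)}
    (hW : x i * lx x j - x j * lx x i ≠ 0) {m m' : Fin r} (hmm' : m ≠ m') (p : Fin (n + 3)) {q : ℕ} (hq : q < k m) :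
    ((d m' : ℂ) * q - k m') * (x p).coeff q = 0 := by
  obtain ⟨o, ho⟩ := h.low
  obtain ⟨α, β, γ, E, -, hE⟩ := h.star hr h5 hM hW hmm' o p
  rw [← coeff_lin]
  have h1 : (X : ℂ[X]) ^ k m ∣ MvPolynomial.aeval x (G m) := by
    rw [h.eq m]
    exact Dvd.intro_left _ rfl
  have h2 : (X : ℂ[X]) ^ k m ∣ x o ^ d m * (C (d m' : ℂ) * lx x p - C (k m' : ℂ) * x p) := by
    have h3 : C (d m' : ℂ) * (x o ^ d m * (C (d m' : ℂ) * lx x p - C (k m' : ℂ) * x p)) =
        MvPolynomial.aeval x (G m) * (C β * x p + C γ * (C (d m' : ℂ) * lx x p - C (k m' : ℂ) * x p) - C α * E) := by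
      linear_combination hE
    have h4 : (X : ℂ[X]) ^ k m ∣ C (d m' : ℂ) * (x o ^ d m * (C (d m' : ℂ) * lx x p - C (k m' : ℂ) * x p)) := by
      rw [h3]
      exact h1.mul_right _
    have hu : IsUnit (C (d m' : ℂ) : ℂ[X]) := by
      rw [isUnit_C, isUnit_iff_ne_zero]
      have := h.pos m'
      exact_mod_cast (by omega : d m' ≠ 0)
    exact (hu.dvd_mul_left).1 h4
  have hnX : ¬ (X : ℂ[X]) ∣ x o ^ d m := by
    rw [X_dvd_iff, coeff_zero_eq_eval_zero, eval_pow, ← coeff_zero_eq_eval_zero]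
    exact pow_ne_zero _ ho
  have h3 : (X : ℂ[X]) ^ k m ∣ C (d m' : ℂ) * lx x p - C (k m' : ℂ) * x p := prime_X.pow_dvd_of_dvd_mul_left _ hnX h2
  exact (X_pow_dvd_iff.1 h3) q hq

/-- the coefficients at infinity -/
theorem coeff_high (h : CrvV a d k c F G x M) (hr : 2 ≤ r) (h5 : n + 5 ≤ ∑ l, a l + ∑ m, d m) (hM : 1 ≤ M) {i j : Fin (n + 3)}
    (hW : x i * lx x j - x j * lx x i ≠ 0) {m m' : Fin r} (hmm' : m ≠ m') (p : Fin (n + 3)) {q : ℕ} (hq : k m + M < q + d m * M) :
    ((d m' : ℂ) * q - k m') * (x p).coeff q = 0 := by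
  obtain ⟨o, ho⟩ := h.top
  obtain ⟨α, β, γ, E, hEd, hE⟩ := h.star hr h5 hM hW hmm' o p
  rw [← coeff_lin]
  by_contra hcon
  obtain ⟨T, hT⟩ : ∃ T, T = C (d m' : ℂ) * lx x p - C (k m' : ℂ) * x p := ⟨_, rfl⟩
  rw [← hT] at hcon hE
  have hT0 : T ≠ 0 := fun h0 => hcon (by rw [h0, coeff_zero])
  have hTq : q ≤ T.natDegree := le_natDegree_of_ne_zero hcon
  have hTM : T.natDegree ≤ M := by
    rw [hT]
    exact (natDegree_sub_le _ _).trans (max_le ((natDegree_C_mul_le _ _).trans (h.natDegree_lx p)) ((natDegree_C_mul_le _ _).trans (h.deg p)))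
  have hxo : (x o ^ d m).natDegree = d m * M := by
    rw [natDegree_pow]
    congr 1
    exact le_antisymm (h.deg o) (le_natDegree_of_ne_zero ho)
  have hxo0 : x o ^ d m ≠ 0 := by
    refine pow_ne_zero _ fun h0 => ho ?_
    rw [h0, coeff_zero]
  have hd0 : (C (d m' : ℂ) : ℂ[X]) ≠ 0 := by
    rw [Ne, C_eq_zero]
    have := h.pos m'
    exact_mod_cast (by omega : d m' ≠ 0)
  have h3 : C (d m' : ℂ) * (x o ^ d m * T) = MvPolynomial.aeval x (G m) * (C β * x p + C γ * T - C α * E) := by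
    linear_combination hE
  have h4 : (C (d m' : ℂ) * (x o ^ d m * T)).natDegree = d m * M + T.natDegree := by
    rw [natDegree_C_mul (by
      intro h0
      rw [h0, C_0] at hd0
      exact hd0 rfl), natDegree_mul hxo0 hT0, hxo]
  have h6 : (MvPolynomial.aeval x (G m) * (C β * x p + C γ * T - C α * E)).natDegree ≤ k m + M := by
    refine natDegree_mul_le_of_le ?_ ?_
    · rw [h.eq m]
      exact natDegree_C_mul_X_pow_le _ _
    · refine (natDegree_sub_le _ _).trans (max_le ((natDegree_add_le _ _).trans (max_le ?_ ?_)) ?_)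
      · exact (natDegree_C_mul_le _ _).trans (h.deg p)
      · exact (natDegree_C_mul_le _ _).trans hTM
      · exact (natDegree_C_mul_le _ _).trans hEd
  rw [← h3, h4] at h6
  omega

theorem cross (h : CrvV a d k c F G x M) (hr : 2 ≤ r) (h3 : 3 ≤ ∑ m, d m) (h5 : n + 5 ≤ ∑ l, a l + ∑ m, d m) (hM : 1 ≤ M) (i j : Fin (n + 3)) :
    x i * lx x j = x j * lx x i := by
  by_contra hne
  have hW : x i * lx x j - x j * lx x i ≠ 0 := sub_ne_zero.2 hne
  have hlow := fun {m m' : Fin r} (hmm' : m ≠ m') (p : Fin (n + 3)) {q : ℕ} (hq : q < k m) => h.coeff_low hr h5 hM hW hmm' p hq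
  have hhigh := fun {m m' : Fin r} (hmm' : m ≠ m') (p : Fin (n + 3)) {q : ℕ} (hq : k m + M < q + d m * M) => h.coeff_high hr h5 hM hW hmm' p hq
  obtain ⟨o, ho⟩ := h.low
  obtain ⟨o', ho'⟩ := h.top
  have hdM : ∀ m, 1 ≤ d m * M := fun m => Nat.one_le_iff_ne_zero.2 (Nat.mul_ne_zero (by have := h.pos m; omega) (by omega))
  have c1 : ∀ {m m' : Fin r}, m ≠ m' → 1 ≤ k m → k m' = 0 := by
    intro m m' hmm' hk
    have h1 := hlow hmm' o (q := 0) (by omega)
    have h2 := (mul_eq_zero.1 h1).resolve_right ho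
    rw [Nat.cast_zero, mul_zero, zero_sub, neg_eq_zero] at h2
    exact_mod_cast h2
  have c2 : ∀ {m m' : Fin r}, m ≠ m' → k m < d m * M → k m' = d m' * M := by
    intro m m' hmm' hk
    have h1 := hhigh hmm' o' (q := M) (by omega)
    have h2 := (mul_eq_zero.1 h1).resolve_right ho'
    have h4 : (d m' : ℂ) * M = k m' := sub_eq_zero.1 h2
    exact_mod_cast h4.symm
  -- the main case
  have key : ∀ m m' : Fin r, m ≠ m' → 1 ≤ k m → False := by
    intro m m' hmm' hk
    have hk' := c1 hmm' hk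
    have hkm := c2 hmm'.symm (by rw [hk']; exact hdM m')
    by_cases hd : 2 ≤ d m
    · -- the coefficient at `M`
      have h1 := hlow hmm' o' (q := M) (by rw [hkm]; nlinarith)
      have h2 := (mul_eq_zero.1 h1).resolve_right ho'
      rw [hk', Nat.cast_zero, sub_zero] at h2
      have h4 : d m' * M = 0 := by exact_mod_cast h2
      have := hdM m'
      omega
    · have hdm : d m = 1 := by have := h.pos m; omega
      by_cases hd' : 2 ≤ d m'
      · have h1 := hhigh hmm'.symm o (q := 0) (by rw [hk']; nlinarith)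
        have h2 := (mul_eq_zero.1 h1).resolve_right ho
        rw [Nat.cast_zero, mul_zero, zero_sub, neg_eq_zero] at h2
        have h4 : k m = 0 := by exact_mod_cast h2
        omega
      · have hdm' : d m' = 1 := by have := h.pos m'; omega
        obtain ⟨q, hq, hq'⟩ : ∃ q, q ≠ m ∧ q ≠ m' := by
          by_contra hcon
          push Not at hcon
          have h1 : ∑ l, d l = d m + d m' := by
            rw [← Finset.sum_pair hmm']
            symm
            refine Finset.sum_subset (Finset.subset_univ _) fun l _ hl => ?_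
            rw [Finset.mem_insert, Finset.mem_singleton, not_or] at hl
            exact absurd (hcon l hl.1) hl.2
          omega
        have h1 := c1 hq.symm hk
        have h2 := c2 hq'.symm (by rw [hk']; exact hdM m')
        have := hdM q
        omega
  obtain ⟨m, hm⟩ : ∃ m : Fin r, m = ⟨0, by omega⟩ := ⟨_, rfl⟩
  obtain ⟨m', hm'⟩ : ∃ m' : Fin r, m' = ⟨1, by omega⟩ := ⟨_, rfl⟩
  have hmm' : m ≠ m' := by
    rw [hm, hm']
    intro h0
    simpa using congrArg Fin.val h0
  by_cases hk : 1 ≤ k m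
  · exact key m m' hmm' hk
  · have h1 := c2 hmm' (by have := hdM m; omega)
    exact key m' m hmm'.symm (by rw [h1]; exact hdM m')

theorem prop (h : CrvV a d k c F G x M) (hr : 2 ≤ r) (h3 : 3 ≤ ∑ m, d m) (h5 : n + 5 ≤ ∑ l, a l + ∑ m, d m) (hM : 1 ≤ M) :
    ∃ (p : ℂ[X]) (v : Fin (n + 3) → ℂ), ∀ i, x i = C (v i) * p := by
  obtain ⟨o, ho⟩ := h.low
  have hxo : x o ≠ 0 := by
    intro h0
    rw [h0, coeff_zero] at ho
    exact ho rfl
  choose v hv using fun i => prop_of_cross (h.cross hr h3 h5 hM o i) hxo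
  exact ⟨x o, v, hv⟩

end CrvV

/-- **Very general sections of a smooth complete intersection surface: rational curves with at most two places on them are constant.** -/
theorem gkv (hr : 2 ≤ r) (homF : ∀ l, (F l).IsHomogeneous (a l)) (posF : ∀ l, 1 ≤ a l) (hom : ∀ m, (G m).IsHomogeneous (d m)) (pos : ∀ m, 1 ≤ d m)
    (h3 : 3 ≤ ∑ m, d m) (h5 : n + 5 ≤ ∑ l, a l + ∑ m, d m)
    (smooth : ∀ p : Fin (n + 3) → ℂ, p ≠ 0 → (∀ l, MvPolynomial.eval p (F l) = 0) →
      LinearIndependent ℂ fun (l : Fin n) (j : Fin (n + 3)) => MvPolynomial.eval p (MvPolynomial.pderiv j (F l))) (gen : Generic F d G) :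
    ∀ (x : Fin (n + 3) → ℂ[X]) (k : Fin r → ℕ) (c : Fin r → ℂ), (∀ m, c m ≠ 0) → (∀ l, MvPolynomial.aeval x (F l) = 0) →
      (∀ m, MvPolynomial.aeval x (G m) = C (c m) * X ^ k m) → ∃ (p : ℂ[X]) (v : Fin (n + 3) → ℂ), ∀ i, x i = C (v i) * p := by
  have key : ∀ (M : ℕ) (x : Fin (n + 3) → ℂ[X]) (k : Fin r → ℕ) (c : Fin r → ℂ), (∀ i, (x i).natDegree ≤ M) → (∀ m, c m ≠ 0) →
      (∀ l, MvPolynomial.aeval x (F l) = 0) →
      (∀ m, MvPolynomial.aeval x (G m) = C (c m) * X ^ k m) → ∃ (p : ℂ[X]) (v : Fin (n + 3) → ℂ), ∀ i, x i = C (v i) * p := by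
    intro M
    induction M with
    | zero =>
      intro x k c hx _ _ _
      refine ⟨1, fun i => (x i).coeff 0, fun i => ?_⟩
      rw [mul_one]
      exact eq_C_of_natDegree_le_zero (hx i)
    | succ M ih =>
      intro x k c hx hc hz he
      by_cases hlow : ∃ i, (x i).coeff 0 ≠ 0
      · by_cases htop : ∃ i, (x i).coeff (M + 1) ≠ 0
        · exact CrvV.prop (M := M + 1) ⟨homF, posF, hom, pos, hz, he, hc, hx, hlow, htop, smooth, gen⟩ hr h3 h5 (by omega)
        · push Not at htop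
          refine ih x k c (fun i => ?_) hc hz he
          rw [natDegree_le_iff_coeff_eq_zero]
          intro n hn
          rcases Nat.lt_or_ge (M + 1) n with h1 | h1
          · exact coeff_eq_zero_of_natDegree_lt (lt_of_le_of_lt (hx i) h1)
          · obtain rfl : n = M + 1 := by omega
            exact htop i
      · push Not at hlow
        choose y hy using fun i => X_dvd_iff.2 (hlow i)
        have hy' : x = fun i => X * y i := funext hy
        have h2 : ∀ {b : ℕ} {P : MvPolynomial (Fin (n + 3)) ℂ}, P.IsHomogeneous b →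
            MvPolynomial.aeval (fun i => X * y i) P = X ^ b * MvPolynomial.aeval y P := by
          intro b P hP
          rw [MvPolynomial.aeval_def, MvPolynomial.aeval_def, MvPolynomial.eval₂_eq', MvPolynomial.eval₂_eq', Finset.mul_sum]
          refine Finset.sum_congr rfl fun β hβ => ?_
          have h4 : ∑ i, β i = b := by
            have h5 : β.degree = b := by
              by_contra hne
              exact MvPolynomial.mem_support_iff.1 hβ (hP.coeff_eq_zero hne)
            rw [← h5]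
            exact (Finsupp.degree_eq_sum β).symm
          simp only [mul_pow, Finset.prod_mul_distrib]
          rw [Finset.prod_pow_eq_pow_sum, h4]
          ring
        have hz' : ∀ l, MvPolynomial.aeval y (F l) = 0 := by
          intro l
          have h1 := hz l
          rw [hy', h2 (homF l)] at h1
          exact (mul_eq_zero.1 h1).resolve_left (pow_ne_zero _ X_ne_zero)
        -- the forms along `y`
        have h1 : ∀ m, X ^ d m * MvPolynomial.aeval y (G m) = C (c m) * X ^ k m := by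
          intro m
          rw [← he m, hy']
          exact (h2 (hom m)).symm
        have h2 : ∀ m, d m ≤ k m := by
          intro m
          have h3 : (X : ℂ[X]) ^ d m ∣ C (c m) * X ^ k m := ⟨_, (h1 m).symm⟩
          have h4 : (X : ℂ[X]) ^ d m ∣ X ^ k m := by
            rwa [mul_comm, IsUnit.dvd_mul_right (isUnit_C.2 (isUnit_iff_ne_zero.2 (hc m)))] at h3
          exact (pow_dvd_pow_iff X_ne_zero not_isUnit_X).1 h4
        have h3 : ∀ m, MvPolynomial.aeval y (G m) = C (c m) * X ^ (k m - d m) := by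
          intro m
          have h4 : (X : ℂ[X]) ^ d m ≠ 0 := pow_ne_zero _ X_ne_zero
          refine mul_left_cancel₀ h4 ?_
          rw [h1 m]
          calc C (c m) * X ^ k m = C (c m) * X ^ (d m + (k m - d m)) := by rw [Nat.add_sub_cancel' (h2 m)]
            _ = X ^ d m * (C (c m) * X ^ (k m - d m)) := by
              rw [pow_add]
              ring
        obtain ⟨p, v, hpv⟩ := ih y (fun m => k m - d m) c (fun i => by
          have h4 := hx i
          by_cases h5 : y i = 0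
          · rw [h5, natDegree_zero]
            exact Nat.zero_le _
          · rw [hy i, natDegree_X_mul h5] at h4
            omega) hc hz' h3
        refine ⟨X * p, v, fun i => ?_⟩
        rw [hy i, hpv i]
        ring
  intro x k c hc hz he
  exact key (Finset.univ.sup fun i => (x i).natDegree) x k c (fun i => Finset.le_sup (f := fun i => (x i).natDegree) (Finset.mem_univ i)) hc hz he

end Pool.Agent.GKV
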