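import Pool.Agent.GKV.Gen

/-!
# GKV Ex: very general families exist
-/

set_option autoImplicit false

open MvPolynomial

namespace Pool.Agent.GKV

theorem mk_coeffField {n N : ℕ} (F : Fin n → MvPolynomial (Fin N) ℂ) : Cardinal.mk (coeffField F) ≤ Cardinal.aleph0 := by
  have hc : ({z | ∃ l β, z = coeff β (F l)} : Set ℂ).Countable := by
    have h1 : ({z | ∃ l β, z = coeff β (F l)} : Set ℂ) = Set.range fun i : Fin n × (Fin N →₀ ℕ) => coeff i.2 (F i.1) := by
      ext z
      constructor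
      · rintro ⟨l, β, rfl⟩
        exact ⟨(l, β), rfl⟩
      · rintro ⟨⟨l, β⟩, rfl⟩
        exact ⟨l, β, rfl⟩
    rw [h1]
    exact Set.countable_range _
  refine (IntermediateField.cardinalMk_adjoin_le ℚ _).trans ?_
  refine sup_le (sup_le ?_ ?_) le_rfl
  · exact Cardinal.mk_le_aleph0
  · exact hc.le_aleph0

theorem exists_algebraicIndependent {n N : ℕ} (F : Fin n → MvPolynomial (Fin N) ℂ) (ι : Type) [Countable ι] :
    ∃ a : ι → ℂ, AlgebraicIndependent (coeffField F) a := by
  obtain ⟨s, hs⟩ := exists_isTranscendenceBasis (coeffField F) ℂ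
  have hcard : Cardinal.mk ℂ = Cardinal.mk s := by
    have h1 := IsAlgClosed.cardinal_eq_cardinal_transcendence_basis_of_aleph0_lt _ hs (mk_coeffField F) (by
      rw [Cardinal.mk_complex]
      exact Cardinal.aleph0_lt_continuum)
    rwa [Cardinal.lift_id, Cardinal.lift_id] at h1
  have hinf : Infinite s := by
    rw [Cardinal.infinite_iff, ← hcard, Cardinal.mk_complex]
    exact Cardinal.aleph0_le_continuum
  obtain ⟨f, hf⟩ := exists_injective_nat ι
  exact ⟨fun i => ((Infinite.natEmbedding s) (f i) : ℂ), hs.1.comp (fun i => Infinite.natEmbedding s (f i))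
    fun i j h => hf ((Infinite.natEmbedding s).injective h)⟩

theorem exists_generic {n N r : ℕ} (F : Fin n → MvPolynomial (Fin N) ℂ) (d : Fin r → ℕ) :
    ∃ G : Fin r → MvPolynomial (Fin N) ℂ, (∀ m, (G m).IsHomogeneous (d m)) ∧ Generic F d G := by
  classical
  obtain ⟨a, ha⟩ := exists_algebraicIndependent F (Σ m : Fin r, {β : Fin N →₀ ℕ // β.degree = d m})
  obtain ⟨c, hc⟩ : ∃ c : Fin r → (Fin N →₀ ℕ) → ℂ, ∀ m β, c m β = if h : β.degree = d m then a ⟨m, β, h⟩ else 0 := ⟨_, fun _ _ => rfl⟩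
  have hfin : ∀ m, {β : Fin N →₀ ℕ | β.degree = d m}.Finite := by
    intro m
    refine Set.Finite.subset (Finset.finite_toSet (Finset.univ.finsuppAntidiag (d m))) ?_
    intro β hβ
    rw [Finset.mem_coe, Finset.mem_finsuppAntidiag]
    refine ⟨?_, Finset.subset_univ _⟩
    rw [← Finsupp.degree_eq_sum]
    exact hβ
  have hcoef : ∀ m β, coeff β (∑ γ ∈ (hfin m).toFinset, monomial γ (c m γ)) = c m β := by
    intro m β
    rw [coeff_sum]
    simp only [coeff_monomial]
    rw [Finset.sum_ite_eq']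
    split_ifs with h
    · rfl
    · rw [hc, dif_neg]
      rwa [Set.Finite.mem_toFinset] at h
  refine ⟨fun m => ∑ γ ∈ (hfin m).toFinset, monomial γ (c m γ), fun m => ?_, ?_⟩
  · refine IsHomogeneous.sum _ _ _ fun γ hγ => ?_
    rw [Set.Finite.mem_toFinset] at hγ
    exact isHomogeneous_monomial _ hγ
  · unfold Generic
    have h1 : (fun i : Σ m : Fin r, {β : Fin N →₀ ℕ // β.degree = d m} =>
        coeff i.2.1 (∑ γ ∈ (hfin i.1).toFinset, monomial γ (c i.1 γ))) = a := by
      funext i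
      rw [hcoef, hc, dif_pos i.2.2]
    rw [h1]
    exact ha

end Pool.Agent.GKV
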