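import Pool.Agent.GKV.End
import Pool.Agent.GKV.Cur
import Pool.Agent.Results.MP_64ff02_ag.SmoothSurfaces

/-!
# GKV Fin: the exceptional set of the complement of a very general family of sections is empty

If the four properties hold for some exceptional set then they hold for the empty one.
-/

set_option autoImplicit false

open MvPolynomial
open Pool.Agent.H17 (PN VanishesAt ZariskiClosedIn HolomorphicInto vanishesAt_mk_iff)
open Pool.Agent.H17LG.Variety (FunField IsLogGeneralType)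
open Pool.Agent.H62.FC (Homog)
open Pool.Agent.H62.SA (locVar OnBd IsProperMap)
open Pool.Agent.Results.MP_64ff02_ag.SmoothSurfaces (FourProperties IsProperClosed StronglyModulo DegenerateOrderTwo degenerate_of_mem IsSmooth)

namespace Pool.Agent.GKV

theorem zariskiClosedIn_empty {N : ℕ} (U : Set (PN N)) : ZariskiClosedIn U (∅ : Set (PN N)) := by
  refine ⟨{1}, ?_, ?_⟩
  · rintro P' hP'
    rw [Set.mem_singleton_iff.1 hP']
    exact ⟨0, isHomogeneous_one _ _⟩
  · ext x
    simp only [Set.mem_empty_iff_false, false_iff, Set.mem_ofPred_eq, not_and]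
    intro _ h
    have h1 := h 1 rfl
    unfold VanishesAt at h1
    rw [map_one] at h1
    exact one_ne_zero h1

/-- the complement of a hypersurface section is affine -/
theorem proper_section {N : ℕ} (P : Ideal (MvPolynomial (Fin (N + 1)) ℂ)) {D : MvPolynomial (Fin (N + 1)) ℂ} {e : ℕ} (hD : D.IsHomogeneous e) (he : 1 ≤ e) :
    IsProperMap P (fun _ : Fin 1 => D) (fun _ => Fin.cons D fun i : Fin (N + 1) => X i ^ e) (fun _ => e) where
  hom m j := by
    refine Fin.cases ?_ (fun i => ?_) j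
    · rw [Fin.cons_zero]
      exact hD
    · rw [Fin.cons_succ]
      have := (isHomogeneous_X ℂ i).pow e
      rwa [one_mul] at this
  zero m := rfl
  rel m k j := by
    obtain rfl : m = k := Subsingleton.elim _ _
    rw [sub_self]
    exact Ideal.zero_mem _
  noZero x _ := by
    obtain ⟨i, hi⟩ : ∃ i, x.rep i ≠ 0 := by
      by_contra hcon
      push Not at hcon
      exact x.rep_nonzero (funext hcon)
    refine ⟨0, i.succ, fun h2 => ?_⟩
    unfold VanishesAt at h2
    rw [Fin.cons_succ, map_pow, eval_X] at h2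
    exact hi (pow_eq_zero_iff (by omega) |>.1 h2)

variable {n r : ℕ} {a : Fin n → ℕ} {d : Fin r → ℕ} {F : Fin n → MvPolynomial (Fin (n + 3)) ℂ} {G : Fin r → MvPolynomial (Fin (n + 3)) ℂ}

/-- **Very general families: the exceptional set is empty.** -/
theorem four_empty (hr : 2 ≤ r) (ha : ∀ l, 1 ≤ a l) (hd : ∀ m, 1 ≤ d m) (h3 : 3 ≤ ∑ m, d m) (h5 : n + 5 ≤ ∑ l, a l + ∑ m, d m)
    (hF : ∀ l, (F l).IsHomogeneous (a l)) (hG : ∀ m, (G m).IsHomogeneous (d m))
    (hsm : ∀ p : Fin (n + 3) → ℂ, p ≠ 0 → (∀ l, eval p (F l) = 0) → LinearIndependent ℂ fun (l : Fin n) (j : Fin (n + 3)) => eval p (pderiv j (F l)))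
    (hgen : Generic F d G) (P : Ideal (MvPolynomial (Fin (n + 3)) ℂ)) [P.IsPrime] (hP : Homog P) (hFP : ∀ l, F l ∈ P)
    (hdim : ∃ z : Fin 2 → FunField P, IsTranscendenceBasis ℂ z) (hsmooth : IsSmooth P 2)
    {Ξ : Set (PN (n + 2))} (hΞ : FourProperties P (fun _ : Fin 1 => ∏ m, G m) Ξ) : FourProperties P (fun _ : Fin 1 => ∏ m, G m) ∅ := by
  have hgt := hΞ.logGeneralType 2 (by norm_num) hdim
  have hD : (∏ m, G m).IsHomogeneous (∑ m, d m) := IsHomogeneous.prod _ _ _ fun m _ => hG m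
  have hmain := (Pool.Agent.Results.MP_64ff02_ag.SmoothSurfaces.result P (fun _ : Fin 1 => ∏ m, G m) _ _ hP hdim
    hsmooth (proper_section P hD (by omega)) hgt).1
  have h51 : (IsProperClosed (locVar P (fun _ : Fin 1 => ∏ m, G m)) ∅ ∧ StronglyModulo P (fun _ : Fin 1 => ∏ m, G m) ∅ ∧
      DegenerateOrderTwo P (fun _ : Fin 1 => ∏ m, G m)) ↔ FourProperties P (fun _ : Fin 1 => ∏ m, G m) ∅ := (hmain ∅).1.out 4 0
  refine h51.1 ⟨⟨zariskiClosedIn_empty _, ?_⟩, ?_, fun f hf _ hfX hfn =>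
    degenerate_of_mem hΞ.properClosed (hΞ.brody f hf hfX hfn)⟩
  · -- `U` is not empty
    intro h2
    obtain ⟨Q', D, hQ', ⟨x, hx, -⟩, -⟩ := (hmain Ξ).2 hΞ
    have h3 : x ∈ (∅ : Set (PN (n + 2))) := h2 ▸ hx
    exact h3
  · -- closed subvarieties
    intro Q _ hQ hPQ hsub w hw hz'
    obtain ⟨x, hx, -⟩ := Set.not_subset.1 hsub
    have hX : ∃ i, (X i : MvPolynomial (Fin (n + 3)) ℂ) ∉ Q := by
      by_contra hcon
      push Not at hcon
      apply x.rep_nonzero
      funext i
      have h1 : VanishesAt (X i : MvPolynomial (Fin (n + 3)) ℂ) x := hx.1 _ (hcon i) 1 (isHomogeneous_X ℂ i)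
      have h2 : eval x.rep (X i : MvPolynomial (Fin (n + 3)) ℂ) = 0 := h1
      rw [eval_X] at h2
      exact h2
    by_cases hle : Q ≤ P
    · have hEq : P = Q := le_antisymm hPQ hle
      subst hEq
      have h1 : w ≤ 2 := Pool.Agent.H62.FC.trdeg_mono hP hP le_rfl hdim hz'
      have h2 : 2 ≤ w := Pool.Agent.H62.FC.trdeg_mono hP hP le_rfl hz' hdim
      obtain rfl : w = 2 := le_antisymm h1 h2
      exact hgt
    · have hlt : w < 2 := Pool.Agent.H17BP.trdeg_lt hP hQ hPQ hle hX hdim hz'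
      obtain rfl : w = 1 := by omega
      refine curve_lgt_v (⟨0, by omega⟩ : Fin r) hF hG hd (gkv hr hF ha hG hd h3 h5 hsm hgen) Q (fun l => hPQ (hFP l)) (fun m hm => ?_) hz'
      obtain ⟨l, hl⟩ := hx.2
      apply hl
      have h4 : VanishesAt (G m) x := hx.1 _ hm (d m) (hG m)
      unfold VanishesAt at h4 ⊢
      rw [map_prod]
      exact Finset.prod_eq_zero (Finset.mem_univ m) h4

end Pool.Agent.GKV
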