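import Pool.Agent.GKV.Det

/-!
# GKV Hess: the union of a very general family of sections has normal crossings, in terms of second derivatives
-/

set_option autoImplicit false

open MvPolynomial

namespace Pool.Agent.GKV

section Lin

variable {n : ℕ}

/-- dual vectors -/
theorem exists_vec {u : Fin 3 → Fin (n + 3) → ℂ} {f : Fin n → Fin (n + 3) → ℂ} (h : D3 u f ≠ 0) (β : Fin 3 → ℂ) :
    ∃ w : Fin (n + 3) → ℂ, (∀ i, ∑ j, w j * u i j = β i) ∧ ∀ l, ∑ j, w j * f l j = 0 := by
  have hunit : IsUnit (rows u f).det := isUnit_iff_ne_zero.2 h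
  have h1 : rows u f * (rows u f)⁻¹ = 1 := Matrix.mul_nonsing_inv _ hunit
  obtain ⟨v, hv⟩ : ∃ v, v = (rows u f)⁻¹.mulVec (Sum.elim β fun _ => 0) := ⟨_, rfl⟩
  have h2 : (rows u f).mulVec v = Sum.elim β fun _ => 0 := by
    rw [hv, Matrix.mulVec_mulVec, h1, Matrix.one_mulVec]
  have h3 : ∀ s, ∑ j, v (eq3 n j) * Sum.elim u f s j = Sum.elim β (fun _ => 0) s := by
    intro s
    rw [← h2]
    show _ = ∑ t, rows u f s t * v t
    rw [← Equiv.sum_comp (eq3 n) fun t => rows u f s t * v t]
    refine Finset.sum_congr rfl fun j _ => ?_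
    rw [mul_comm]
    simp [rows]
  exact ⟨fun j => v (eq3 n j), fun i => h3 (Sum.inl i), fun l => h3 (Sum.inr l)⟩

/-- a vector which is orthogonal to a basis is zero -/
theorem vec_zero {u : Fin 3 → Fin (n + 3) → ℂ} {f : Fin n → Fin (n + 3) → ℂ} (h : D3 u f ≠ 0) {v : Fin (n + 3) → ℂ}
    (h1 : ∀ i, ∑ j, v j * u i j = 0) (h2 : ∀ l, ∑ j, v j * f l j = 0) : v = 0 := by
  by_contra hv
  apply h
  refine Matrix.exists_mulVec_eq_zero_iff.1 ⟨fun s => v ((eq3 n).symm s), ?_, ?_⟩
  · intro h0
    apply hv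
    funext j
    have h3 := congrFun h0 (eq3 n j)
    simpa using h3
  · funext s
    have h3 : (rows u f).mulVec (fun s => v ((eq3 n).symm s)) s = ∑ j, Sum.elim u f s j * v j :=
      Equiv.sum_comp (eq3 n).symm fun j => Sum.elim u f s j * v j
    rw [h3]
    rcases s with i | l
    · rw [Pi.zero_apply, ← h1 i]
      exact Finset.sum_congr rfl fun j _ => mul_comm _ _
    · rw [Pi.zero_apply, ← h2 l]
      exact Finset.sum_congr rfl fun j _ => mul_comm _ _

end Lin

section Pd

variable {N : ℕ}

/-- the second derivatives of a product at a common zero of two factors -/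
theorem pderiv_two {A B H : MvPolynomial (Fin N) ℂ} {x : Fin N → ℂ} (hA : eval x A = 0) (hB : eval x B = 0) (k l : Fin N) :
    eval x (pderiv k (pderiv l (A * B * H))) =
      eval x H * (eval x (pderiv k A) * eval x (pderiv l B) + eval x (pderiv l A) * eval x (pderiv k B)) := by
  simp only [pderiv_mul, map_add, map_mul, hA, hB]
  ring

theorem pderiv_one' {A H : MvPolynomial (Fin N) ℂ} {x : Fin N → ℂ} (hA : eval x A = 0) (k : Fin N) :
    eval x (pderiv k (A * H)) = eval x H * eval x (pderiv k A) := by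
  simp only [pderiv_mul, map_add, map_mul, hA]
  ring

end Pd

variable {n r : ℕ} {a : Fin n → ℕ} {d : Fin r → ℕ} {F : Fin n → MvPolynomial (Fin (n + 3)) ℂ} {G : Fin r → MvPolynomial (Fin (n + 3)) ℂ}

/-- **Normal crossings of very general families.**  At a singular point `x` of the divisor `∏ G m = 0` of `V` the second derivative has the kernel `ℂ x`. -/
theorem Generic.nodal (hG : Generic F d G) (homF : ∀ l, (F l).IsHomogeneous (a l)) (hom : ∀ m, (G m).IsHomogeneous (d m)) (pos : ∀ m, 1 ≤ d m)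
    {x : Fin (n + 3) → ℂ} (hx : x ≠ 0) (hFx : ∀ l, eval x (F l) = 0)
    (hsm : LinearIndependent ℂ fun (l : Fin n) (j : Fin (n + 3)) => eval x (pderiv j (F l))) (h0 : eval x (∏ m, G m) = 0)
    (b : Fin n → ℂ) (hgr : ∀ k, eval x (pderiv k (∏ m, G m - ∑ l, C (b l) * F l)) = 0) (v : Fin (n + 3) → ℂ)
    (hvF : ∀ l, ∑ k, v k * eval x (pderiv k (F l)) = 0)
    (hv : ∀ w : Fin (n + 3) → ℂ, (∀ l, ∑ k, w k * eval x (pderiv k (F l)) = 0) →
      ∑ k, ∑ l, v k * w l * eval x (pderiv k (pderiv l (∏ m, G m - ∑ l, C (b l) * F l))) = 0) : ∃ b : ℂ, v = b • x := by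
  classical
  have hgr' : ∀ k, eval x (pderiv k (∏ m, G m)) = ∑ l, b l * eval x (pderiv k (F l)) := by
    intro k
    have h1 := hgr k
    rw [map_sub, map_sub, map_sum, map_sum, sub_eq_zero] at h1
    rw [h1]
    refine Finset.sum_congr rfl fun l _ => ?_
    rw [pderiv_C_mul, map_mul, eval_C]
  rw [map_prod, Finset.prod_eq_zero_iff] at h0
  obtain ⟨m, -, hm⟩ := h0
  have hprod : ∏ l, G l = G m * ∏ l ∈ Finset.univ.erase m, G l := (Finset.mul_prod_erase _ _ (Finset.mem_univ m)).symm
  by_cases hn : ∃ m', m' ≠ m ∧ eval x (G m') = 0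
  · obtain ⟨m', hnm, hn⟩ := hn
    have hprod2 : ∏ l ∈ Finset.univ.erase m, G l = G m' * ∏ l ∈ (Finset.univ.erase m).erase m', G l :=
      (Finset.mul_prod_erase _ _ (Finset.mem_erase.2 ⟨hnm, Finset.mem_univ _⟩)).symm
    obtain ⟨H, hH⟩ : ∃ H, H = ∏ l ∈ (Finset.univ.erase m).erase m', G l := ⟨_, rfl⟩
    have hH0 : eval x H ≠ 0 := by
      rw [hH, map_prod, Finset.prod_ne_zero_iff]
      intro l hl hl0
      rw [Finset.mem_erase, Finset.mem_erase] at hl
      exact hG.no_triple homF hom hl.2.1 hl.1 hnm.symm hx hFx hsm ⟨hl0, hm, hn⟩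
    rw [hprod2, ← hH, ← mul_assoc] at hprod
    rw [hprod] at hv hgr'
    -- `b = 0`
    have hb : b = 0 := by
      rw [Fintype.linearIndependent_iff] at hsm
      funext l
      refine hsm b ?_ l
      funext j
      rw [Finset.sum_apply, Pi.zero_apply]
      simp only [Pi.smul_apply, smul_eq_mul]
      rw [← hgr' j, mul_assoc, pderiv_one' hm, map_mul, hn, zero_mul, zero_mul]
    obtain ⟨o, ho⟩ := exists_D3_two (u₁ := gp (G m) x) (u₂ := gp (G m') x) (f := fun l => gp (F l) x) fun _ _ _ hst =>
      hG.nc₂ homF hom pos hnm.symm hx hFx hsm (Or.inl hm) hst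
    have hpair : ∀ w : Fin (n + 3) → ℂ, (∀ l, ∑ k, w k * eval x (pderiv k (F l)) = 0) →
        (∑ k, v k * eval x (pderiv k (G m))) * (∑ l, w l * eval x (pderiv l (G m'))) +
        (∑ l, w l * eval x (pderiv l (G m))) * (∑ k, v k * eval x (pderiv k (G m'))) = 0 := by
      intro w hw
      have h1 := hv w hw
      rw [hb] at h1
      simp only [Pi.zero_apply, map_zero, zero_mul, Finset.sum_const_zero, sub_zero, pderiv_two hm hn] at h1
      have h2 : eval x H * ((∑ k, v k * eval x (pderiv k (G m))) * (∑ l, w l * eval x (pderiv l (G m'))) +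
        (∑ l, w l * eval x (pderiv l (G m))) * (∑ k, v k * eval x (pderiv k (G m')))) = 0 := by
        rw [← h1, Finset.sum_mul_sum, Finset.sum_mul_sum, Finset.sum_comm (f := fun l k => w l * eval x (pderiv l (G m)) * (v k * eval x (pderiv k (G m'))))]
        rw [← Finset.sum_add_distrib, Finset.mul_sum]
        refine Finset.sum_congr rfl fun k _ => ?_
        rw [← Finset.sum_add_distrib, Finset.mul_sum]
        refine Finset.sum_congr rfl fun l _ => ?_
        ring
      exact (mul_eq_zero.1 h2).resolve_left hH0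
    obtain ⟨w₁, h1, h1F⟩ := exists_vec ho ![0, 1, 0]
    obtain ⟨w₂, h2, h2F⟩ := exists_vec ho ![0, 0, 1]
    have e1 := hpair w₁ h1F
    have e2 := hpair w₂ h2F
    have a1 : ∑ l, w₁ l * eval x (pderiv l (G m)) = 1 := h1 1
    have a2 : ∑ l, w₁ l * eval x (pderiv l (G m')) = 0 := h1 2
    have b1 : ∑ l, w₂ l * eval x (pderiv l (G m)) = 0 := h2 1
    have b2 : ∑ l, w₂ l * eval x (pderiv l (G m')) = 1 := h2 2
    rw [a1, a2, mul_zero, zero_add, one_mul] at e1
    rw [b1, b2, mul_one, zero_mul, add_zero] at e2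
    have he : ∀ {b : ℕ} {P : MvPolynomial (Fin (n + 3)) ℂ}, P.IsHomogeneous b → eval x P = 0 → ∑ j, x j * eval x (pderiv j P) = 0 := fun hP h0 => by
      rw [euler_eval hP, h0, mul_zero]
    have hs : ∀ (y : Fin (n + 3) → ℂ), ∑ j, y j * (Pi.single o 1 : Fin (n + 3) → ℂ) j = y o := by
      intro y
      rw [Finset.sum_eq_single o]
      · rw [Pi.single_eq_same, mul_one]
      · intro b _ hb
        rw [Pi.single_eq_of_ne hb, mul_zero]
      · intro hj
        exact absurd (Finset.mem_univ _) hj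
    have hxo : x o ≠ 0 := by
      intro h3
      refine hx (vec_zero ho (fun i => ?_) fun l => he (homF l) (hFx l))
      fin_cases i
      · exact (hs x).trans h3
      · exact he (hom m) hm
      · exact he (hom m') hn
    have h3 : (fun j => x o * v j - v o * x j) = 0 := by
      have hlin : ∀ g : Fin (n + 3) → ℂ, ∑ j, (x o * v j - v o * x j) * g j = x o * ∑ j, v j * g j - v o * ∑ j, x j * g j := by
        intro g
        rw [Finset.mul_sum, Finset.mul_sum, ← Finset.sum_sub_distrib]
        refine Finset.sum_congr rfl fun j _ => ?_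
        ring
      refine vec_zero ho (fun i => ?_) fun l => ?_
      · rw [hlin]
        fin_cases i
        · show x o * ∑ j, v j * (Pi.single o 1 : Fin (n + 3) → ℂ) j - v o * ∑ j, x j * (Pi.single o 1 : Fin (n + 3) → ℂ) j = 0
          rw [hs, hs]
          ring
        · show x o * ∑ j, v j * eval x (pderiv j (G m)) - v o * ∑ j, x j * eval x (pderiv j (G m)) = 0
          rw [e2, he (hom m) hm]
          ring
        · show x o * ∑ j, v j * eval x (pderiv j (G m')) - v o * ∑ j, x j * eval x (pderiv j (G m')) = 0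
          rw [e1, he (hom m') hn]
          ring
      · rw [hlin]
        show x o * ∑ j, v j * eval x (pderiv j (F l)) - v o * ∑ j, x j * eval x (pderiv j (F l)) = 0
        rw [hvF l, he (homF l) (hFx l)]
        ring
    refine ⟨v o / x o, funext fun j => ?_⟩
    rw [Pi.smul_apply, smul_eq_mul, div_mul_eq_mul_div, eq_div_iff hxo]
    have h4 := congrFun h3 j
    rw [Pi.zero_apply] at h4
    linear_combination h4
  · exfalso
    push Not at hn
    obtain ⟨H, hH⟩ : ∃ H, H = ∏ l ∈ Finset.univ.erase m, G l := ⟨_, rfl⟩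
    have hH0 : eval x H ≠ 0 := by
      rw [hH, map_prod, Finset.prod_ne_zero_iff]
      intro l hl
      exact hn l (Finset.mem_erase.1 hl).1
    rw [hprod, ← hH] at hgr'
    have h2 := (hG.nc hom hx hFx hsm (α := fun l => -b l) (β := fun l => if l = m then eval x H else 0) (fun l => ?_) (fun j => ?_)).2
    · have h3 := congrFun h2 m
      simp only [if_pos, Pi.zero_apply] at h3
      exact hH0 h3
    · by_cases hl : l = m
      · subst hl
        exact Or.inr hm
      · simp only [if_neg hl]
        exact Or.inl trivial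
    · have h3 := hgr' j
      rw [pderiv_one' hm] at h3
      rw [Finset.sum_eq_single m]
      · rw [if_pos rfl, h3, ← Finset.sum_add_distrib]
        refine Finset.sum_eq_zero fun l _ => ?_
        ring
      · intro l _ hl
        rw [if_neg hl, zero_mul]
      · intro hj
        exact absurd (Finset.mem_univ _) hj

end Pool.Agent.GKV
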