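import Pool.Agent.GKV.Fin
import Pool.Agent.GKV.Ex
import Pool.Agent.GKV.Hess
import Pool.Agent.TCN.FinC

/-!
# GKV Main: the complement of a very general reducible section of a smooth complete intersection surface
-/

set_option autoImplicit false

open MvPolynomial
open Pool.Agent.H17 (PN)
open Pool.Agent.H17R (GGLWith)
open Pool.Agent.H17LG.Variety (FunField)
open Pool.Agent.H62.FC (Homog)
open Pool.Agent.Results.MP_64ff02_ag.SmoothSurfaces (FourProperties)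

namespace Pool.Agent.GKV

variable {n r : ℕ} {a : Fin n → ℕ} {d : Fin r → ℕ} {F : Fin n → MvPolynomial (Fin (n + 3)) ℂ} {G : Fin r → MvPolynomial (Fin (n + 3)) ℂ}

/-- **Very general reducible sections.** -/
theorem main_generic_v (hr : 2 ≤ r) (ha : ∀ l, 1 ≤ a l) (hd : ∀ m, 1 ≤ d m) (h3 : 3 ≤ ∑ m, d m) (h5 : n + 5 ≤ ∑ l, a l + ∑ m, d m)
    (hF : ∀ l, (F l).IsHomogeneous (a l)) (hG : ∀ m, (G m).IsHomogeneous (d m))
    (hsm : ∀ p : Fin (n + 3) → ℂ, p ≠ 0 → (∀ l, eval p (F l) = 0) → LinearIndependent ℂ fun (l : Fin n) (j : Fin (n + 3)) => eval p (pderiv j (F l)))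
    (hgen : Generic F d G) (P : Ideal (MvPolynomial (Fin (n + 3)) ℂ)) [P.IsPrime] (hP : Homog P) (hFP : ∀ l, F l ∈ P)
    (hdim : ∃ z : Fin 2 → FunField P, IsTranscendenceBasis ℂ z) : GGLWith P (fun _ : Fin 1 => ∏ m, G m) ∅ := by
  classical
  obtain ⟨o, ho⟩ : ∃ o : Fin r, o = ⟨0, by omega⟩ := ⟨_, rfl⟩
  obtain ⟨o', ho'⟩ : ∃ o' : Fin r, o' = ⟨1, by omega⟩ := ⟨_, rfl⟩
  have hne : o' ≠ o := by
    rw [ho, ho']
    intro h
    simpa using congrArg Fin.val h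
  have hprod : ∏ m, G m = G o * ∏ m ∈ Finset.univ.erase o, G m := (Finset.mul_prod_erase _ _ (Finset.mem_univ o)).symm
  have hsum : ∑ m, d m = d o + ∑ m ∈ Finset.univ.erase o, d m := (Finset.add_sum_erase _ _ (Finset.mem_univ o)).symm
  have hpos : 1 ≤ ∑ m ∈ Finset.univ.erase o, d m :=
    (hd o').trans (Finset.single_le_sum (f := d) (fun m _ => Nat.zero_le _) (Finset.mem_erase.2 ⟨hne, Finset.mem_univ _⟩))
  have hpair := Pool.Agent.TCN.npair_of_nc (n := n) (a := a) (F := F) (d₀ := d o) (d₁ := ∑ m ∈ Finset.univ.erase o, d m) (G₀ := G o)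
    (G₁ := ∏ m ∈ Finset.univ.erase o, G m) ha (hd o) hpos (by omega) hF (hG o)
    (IsHomogeneous.prod _ _ _ fun m _ => hG m) (fun x hx hFx => ⟨hsm x hx hFx, fun hev c hgr v hvF hv => by
      rw [← hprod] at hev hgr hv
      exact hgen.nodal hF hG hd hx hFx (hsm x hx hFx) hev c hgr v hvF hv⟩)
  have hQ : ∀ j : Fin (n + 2), 2 ≤ (j : ℕ) → (Fin.cons (G o) (Fin.cons (∏ m ∈ Finset.univ.erase o, G m) F) : Fin (n + 2) → MvPolynomial (Fin (n + 3)) ℂ) j ∈ P := by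
    intro j hj
    obtain ⟨l, rfl⟩ : ∃ l : Fin n, j = l.succ.succ := by
      refine ⟨⟨(j : ℕ) - 2, by have := j.2; omega⟩, ?_⟩
      ext
      simp only [Fin.val_succ]
      omega
    exact hFP l
  obtain ⟨Ξ, hΞ⟩ := hpair.exists_four P hP hQ hdim
  have hΞ' : FourProperties P (fun _ : Fin 1 => ∏ m, G m) Ξ := by
    rw [hprod]
    exact hΞ
  exact Pool.Agent.TCN.ggl_one (four_empty hr ha hd h3 h5 hF hG hsm hgen P hP hFP hdim (fun x hx hxP => hpair.tangent P hQ x hx hxP) hΞ')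

end Pool.Agent.GKV
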