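import Pool.Agent.GKV.Det

/-!
# GKV Mu: the polynomial `μ` of three logarithmic vectors
-/

set_option autoImplicit false

open Polynomial

namespace Pool.Agent.GKV

variable {n r : ℕ} {a : Fin n → ℕ} {d k : Fin r → ℕ} {c : Fin r → ℂ} {F : Fin n → MvPolynomial (Fin (n + 3)) ℂ}
  {G : Fin r → MvPolynomial (Fin (n + 3)) ℂ} {x : Fin (n + 3) → ℂ[X]} {M : ℕ}

/-- the determinant of the pairings of constant vectors with the gradients of the `F l` -/
noncomputable def JJ (F : Fin n → MvPolynomial (Fin (n + 3)) ℂ) (x : Fin (n + 3) → ℂ[X]) (Y : Fin n → Fin (n + 3) → ℂ) : ℂ[X] :=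
  (pr (cst Y) fun l => gf (F l) x).det

theorem JJ_eval (F : Fin n → MvPolynomial (Fin (n + 3)) ℂ) (x : Fin (n + 3) → ℂ[X]) (Y : Fin n → Fin (n + 3) → ℂ) (t : ℂ) :
    (JJ F x Y).eval t = (pr Y fun l => gp (F l) fun i => (x i).eval t).det := by
  have h1 := pr_map (evalRingHom t) (cst Y) fun l => gf (F l) x
  have h2 : (fun i j => (evalRingHom t) (cst Y i j)) = Y := by
    funext i j
    simp [cst]
  have h3 : (fun (i : Fin n) j => (evalRingHom t) (gf (F i) x j)) = fun l => gp (F l) fun i => (x i).eval t := by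
    funext i j
    exact gf_eval _ _ _ _
  rw [h2, h3] at h1
  exact h1.symm

theorem CrvV.exists_JJ (h : CrvV a d k c F G x M) (hr : 1 ≤ r) (t : ℂ) : ∃ Y, (JJ F x Y).eval t ≠ 0 := by
  obtain ⟨Y, hY⟩ := exists_pr (h.ind hr t)
  exact ⟨Y, by rw [JJ_eval]; exact hY⟩

theorem CrvV.JJ_top (h : CrvV a d k c F G x M) (Y : Fin n → Fin (n + 3) → ℂ) :
    (JJ F x Y).natDegree ≤ ∑ l, (a l - 1) * M ∧ (JJ F x Y).coeff (∑ l, (a l - 1) * M) = (pr Y fun l => gp (F l) fun i => (x i).coeff M).det := by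
  have hj := fun (l : Fin n) j => coeff_top h.deg ((h.homF l).pderiv (i := j))
  have h1 := det_top (pr (cst Y) fun l => gf (F l) x).transpose (fun l => (a l - 1) * M) (fun l l' => ?_)
  · rw [Matrix.det_transpose] at h1
    refine ⟨h1.1, h1.2.trans ?_⟩
    rw [← Matrix.det_transpose (pr Y _)]
    congr 1
    ext l l'
    show (∑ j, C (Y l' j) * gf (F l) x j).coeff _ = ∑ j, Y l' j * gp (F l) _ j
    rw [finsetSum_coeff]
    refine Finset.sum_congr rfl fun j _ => ?_
    rw [coeff_C_mul]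
    congr 1
    exact (hj l j).2
  · show (∑ j, C (Y l' j) * gf (F l) x j).natDegree ≤ _
    refine natDegree_sum_le_of_forall_le _ _ fun j _ => ?_
    exact (natDegree_C_mul_le _ _).trans (hj l j).1

theorem CrvV.exists_JJ_top (h : CrvV a d k c F G x M) : ∃ Y, (JJ F x Y).natDegree = ∑ l, (a l - 1) * M ∧ JJ F x Y ≠ 0 := by
  obtain ⟨Y, hY⟩ := exists_pr h.top_ind
  obtain ⟨h1, h2⟩ := h.JJ_top Y
  refine ⟨Y, le_antisymm h1 (le_natDegree_of_ne_zero (by rw [h2]; exact hY)), fun h0 => ?_⟩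
  rw [h0, coeff_zero] at h2
  exact hY h2.symm

/-- the ideal generated by the `JJ F x Y` is the whole ring -/
theorem CrvV.span_JJ (h : CrvV a d k c F G x M) (hr : 1 ≤ r) : (1 : ℂ[X]) ∈ Submodule.span ℂ[X] (Set.range (JJ F x)) := by
  set I : Ideal ℂ[X] := Submodule.span ℂ[X] (Set.range (JJ F x)) with hI
  obtain ⟨g, hg⟩ : ∃ g, g = Submodule.IsPrincipal.generator I := ⟨_, rfl⟩
  have hdvd : ∀ Y, g ∣ JJ F x Y := by
    intro Y
    have h2 : JJ F x Y ∈ I := Submodule.subset_span ⟨Y, rfl⟩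
    rw [hg]
    exact (Submodule.IsPrincipal.mem_iff_generator_dvd I).1 h2
  have hunit : IsUnit g := by
    by_contra hu
    have hg0 : g ≠ 0 := by
      intro h0
      obtain ⟨Y, hY⟩ := h.exists_JJ hr 0
      obtain ⟨q, hq⟩ := hdvd Y
      apply hY
      rw [hq, h0, zero_mul, eval_zero]
    have hdeg : g.degree ≠ 0 := by
      intro h0
      exact hu (isUnit_iff_degree_eq_zero.2 h0)
    obtain ⟨t, ht⟩ := IsAlgClosed.exists_root g hdeg
    obtain ⟨Y, hY⟩ := h.exists_JJ hr t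
    obtain ⟨q, hq⟩ := hdvd Y
    apply hY
    rw [hq, eval_mul, ht, zero_mul]
  have h1 : (1 : ℂ[X]) ∈ I := by
    rw [Submodule.IsPrincipal.mem_iff_generator_dvd I, ← hg]
    exact hunit.dvd
  exact h1

/-- the determinant of three vectors and of constant vectors -/
noncomputable def DD (w : Fin 3 → Fin (n + 3) → ℂ[X]) (Y : Fin n → Fin (n + 3) → ℂ) : ℂ[X] := D3 w (cst Y)

theorem DD_mul {w : Fin 3 → Fin (n + 3) → ℂ[X]} (hw : ∀ i l, gr x (F l) (w i) = 0) (u : Fin 3 → Fin (n + 3) → ℂ[X]) (Y : Fin n → Fin (n + 3) → ℂ) :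
    DD w Y * D3 u (fun l => gf (F l) x) = (pr w u).det * JJ F x Y :=
  blk fun i l => by rw [mul_gf]; exact hw i l

theorem CrvV.exists_u (h : CrvV a d k c F G x M) (hr : 1 ≤ r) : ∃ u : Fin 3 → Fin (n + 3) → ℂ[X], D3 u (fun l => gf (F l) x) ≠ 0 := by
  obtain ⟨u, hu⟩ := exists_D3 (h.ind hr 0)
  refine ⟨cst u, fun h0 => hu ?_⟩
  have h1 := D3_map (evalRingHom 0) (cst u) fun l => gf (F l) x
  have h2 : (fun i j => (evalRingHom 0) (cst u i j)) = u := by
    funext i j
    simp [cst]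
  have h3 : (fun (i : Fin n) j => (evalRingHom 0) (gf (F i) x j)) = fun l => gp (F l) fun i => (x i).eval 0 := by
    funext i j
    exact gf_eval _ _ _ _
  rw [h2, h3, h0, map_zero] at h1
  exact h1

theorem CrvV.exists_mu (h : CrvV a d k c F G x M) (hr : 1 ≤ r) {w : Fin 3 → Fin (n + 3) → ℂ[X]} (hw : ∀ i l, gr x (F l) (w i) = 0) :
    ∃ μ : ℂ[X], ∀ Y, DD w Y = μ * JJ F x Y := by
  have hcomm : ∀ Y Y', DD w Y * JJ F x Y' = DD w Y' * JJ F x Y := by
    intro Y Y'
    obtain ⟨u, hu⟩ := h.exists_u hr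
    have h1 := DD_mul hw u Y
    have h2 := DD_mul hw u Y'
    refine mul_right_cancel₀ hu ?_
    linear_combination JJ F x Y' * h1 - JJ F x Y * h2
  obtain ⟨b, hb⟩ := Finsupp.mem_span_range_iff_exists_finsupp.1 (h.span_JJ hr)
  refine ⟨b.sum fun Y q => q * DD w Y, fun Y => ?_⟩
  calc DD w Y = DD w Y * (b.sum fun Y' q => q • JJ F x Y') := by rw [hb, mul_one]
    _ = b.sum fun Y' q => q * DD w Y' * JJ F x Y := by
      rw [Finsupp.sum, Finsupp.sum, Finset.mul_sum]
      refine Finset.sum_congr rfl fun Y' _ => ?_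
      rw [smul_eq_mul]
      linear_combination b Y' * hcomm Y Y'
    _ = (b.sum fun Y' q => q * DD w Y') * JJ F x Y := by
      rw [Finsupp.sum, Finsupp.sum, Finset.sum_mul]

/-- the degree of a `3 × 3` determinant -/
theorem det3_deg {A : Matrix (Fin 3) (Fin 3) ℂ[X]} {e : Fin 3 → ℕ} {M : ℕ} (he : ∀ i, M ≤ e i) (h0 : ∀ i, (A i 0).natDegree ≤ e i)
    (h1 : ∀ i, (A i 1).natDegree ≤ e i - M) (h2 : ∀ i, (A i 2).natDegree ≤ e i - M) : A.det.natDegree ≤ e 0 + e 1 + e 2 - 2 * M := by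
  rw [Matrix.det_fin_three]
  have t : ∀ i j l : Fin 3, (A i 0 * A j 1 * A l 2).natDegree ≤ e i + (e j - M) + (e l - M) := fun i j l =>
    natDegree_mul_le_of_le (natDegree_mul_le_of_le (h0 i) (h1 j)) (h2 l)
  have c0 := he 0
  have c1 := he 1
  have c2 := he 2
  have s1 : (A 0 0 * A 1 1 * A 2 2).natDegree ≤ e 0 + e 1 + e 2 - 2 * M := (t 0 1 2).trans (by omega)
  have s2 : (A 0 0 * A 1 2 * A 2 1).natDegree ≤ e 0 + e 1 + e 2 - 2 * M := by
    rw [show A 0 0 * A 1 2 * A 2 1 = A 0 0 * A 2 1 * A 1 2 by ring]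
    exact (t 0 2 1).trans (by omega)
  have s3 : (A 0 1 * A 1 0 * A 2 2).natDegree ≤ e 0 + e 1 + e 2 - 2 * M := by
    rw [show A 0 1 * A 1 0 * A 2 2 = A 1 0 * A 0 1 * A 2 2 by ring]
    exact (t 1 0 2).trans (by omega)
  have s4 : (A 0 1 * A 1 2 * A 2 0).natDegree ≤ e 0 + e 1 + e 2 - 2 * M := by
    rw [show A 0 1 * A 1 2 * A 2 0 = A 2 0 * A 0 1 * A 1 2 by ring]
    exact (t 2 0 1).trans (by omega)
  have s5 : (A 0 2 * A 1 0 * A 2 1).natDegree ≤ e 0 + e 1 + e 2 - 2 * M := by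
    rw [show A 0 2 * A 1 0 * A 2 1 = A 1 0 * A 2 1 * A 0 2 by ring]
    exact (t 1 2 0).trans (by omega)
  have s6 : (A 0 2 * A 1 1 * A 2 0).natDegree ≤ e 0 + e 1 + e 2 - 2 * M := by
    rw [show A 0 2 * A 1 1 * A 2 0 = A 2 0 * A 1 1 * A 0 2 by ring]
    exact (t 2 1 0).trans (by omega)
  have hs : ∀ {p q : ℂ[X]}, p.natDegree ≤ e 0 + e 1 + e 2 - 2 * M → q.natDegree ≤ e 0 + e 1 + e 2 - 2 * M →
      (p - q).natDegree ≤ e 0 + e 1 + e 2 - 2 * M := fun hp hq => (natDegree_sub_le _ _).trans (max_le hp hq)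
  have ha : ∀ {p q : ℂ[X]}, p.natDegree ≤ e 0 + e 1 + e 2 - 2 * M → q.natDegree ≤ e 0 + e 1 + e 2 - 2 * M →
      (p + q).natDegree ≤ e 0 + e 1 + e 2 - 2 * M := fun hp hq => (natDegree_add_le _ _).trans (max_le hp hq)
  exact hs (ha (ha (hs (hs s1 s2) s3) s4) s5) s6

/-- the determinant of the pairings of logarithmic vectors with a constant vector and two gradients -/
theorem CrvV.pr_two (h : CrvV a d k c F G x M) {w : Fin 3 → Fin (n + 3) → ℂ[X]} {e : Fin 3 → ℕ} (he : ∀ i, M ≤ e i)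
    (hw : ∀ i, LogV F G x M (e i) (w i)) (o : Fin (n + 3)) (m m' : Fin r) :
    ∃ δ : ℂ[X], δ.natDegree ≤ e 0 + e 1 + e 2 - 2 * M ∧
      (pr w ![fun j => C ((Pi.single o 1 : Fin (n + 3) → ℂ) j), gf (G m) x, gf (G m') x]).det = C (c m * c m') * X ^ (k m + k m') * δ := by
  choose g hg hge using fun i => (hw i).2.2
  refine ⟨(Matrix.of fun i => ![w i o, g i m, g i m']).det, det3_deg he (fun i => (hw i).1 o) (fun i => hg i m) (fun i => hg i m'), ?_⟩
  have h1 : pr w ![fun j => C ((Pi.single o 1 : Fin (n + 3) → ℂ) j), gf (G m) x, gf (G m') x] =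
      Matrix.of fun i => ![w i o, g i m * (C (c m) * X ^ k m), g i m' * (C (c m') * X ^ k m')] := by
    refine Matrix.ext fun i j => ?_
    fin_cases j
    · show ∑ j, w i j * C ((Pi.single o 1 : Fin (n + 3) → ℂ) j) = w i o
      rw [Finset.sum_eq_single o]
      · rw [Pi.single_eq_same, C_1, mul_one]
      · intro b _ hb
        rw [Pi.single_eq_of_ne hb, C_0, mul_zero]
      · intro hj
        exact absurd (Finset.mem_univ _) hj
    · show ∑ j, w i j * gf (G m) x j = g i m * (C (c m) * X ^ k m)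
      rw [mul_gf, hge, h.eq]
    · show ∑ j, w i j * gf (G m') x j = g i m' * (C (c m') * X ^ k m')
      rw [mul_gf, hge, h.eq]
  rw [h1, Matrix.det_fin_three, Matrix.det_fin_three]
  simp only [Matrix.of_apply, Matrix.cons_val_zero, Matrix.cons_val_one, Matrix.cons_val, C_mul, pow_add]
  ring

theorem CrvV.exists_o (h : CrvV a d k c F G x M) {m m' : Fin r} (hmm' : m ≠ m') {p : Fin (n + 3) → ℂ} (hp : p ≠ 0) (hFp : ∀ l, MvPolynomial.eval p (F l) = 0)
    (h0 : MvPolynomial.eval p (G m) = 0 ∨ MvPolynomial.eval p (G m') = 0) :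
    ∃ o : Fin (n + 3), D3 ![Pi.single o 1, gp (G m) p, gp (G m') p] (fun l => gp (F l) p) ≠ 0 :=
  exists_D3_two fun _ _ _ hst => h.gen.nc₂ h.homF h.hom h.pos hmm' hp hFp (h.smooth p hp hFp) h0 hst

/-- the order at `0` -/
theorem CrvV.low_two (h : CrvV a d k c F G x M) (hr : 1 ≤ r) {w : Fin 3 → Fin (n + 3) → ℂ[X]} {e : Fin 3 → ℕ} (he : ∀ i, M ≤ e i)
    (hw : ∀ i, LogV F G x M (e i) (w i)) {μ : ℂ[X]} (hμ : ∀ Y, DD w Y = μ * JJ F x Y) (hμ0 : μ ≠ 0) {m m' : Fin r} (hmm' : m ≠ m') :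
    k m + k m' ≤ μ.natDegree := by
  by_cases hk : k m = 0 ∧ k m' = 0
  · rw [hk.1, hk.2]
    exact Nat.zero_le _
  · have hm : ∀ m, k m ≠ 0 → MvPolynomial.eval (fun i => (x i).eval 0) (G m) = 0 := by
      intro m hm
      rw [← eval_aeval, h.eq m, eval_mul, eval_pow, eval_X, zero_pow hm, mul_zero]
    have h0 : MvPolynomial.eval (fun i => (x i).eval 0) (G m) = 0 ∨ MvPolynomial.eval (fun i => (x i).eval 0) (G m') = 0 := by
      by_cases h0 : k m = 0
      · exact Or.inr (hm m' fun h1 => hk ⟨h0, h1⟩)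
      · exact Or.inl (hm m h0)
    obtain ⟨o, ho⟩ := h.exists_o hmm' (h.ptne hr 0) (h.onV 0) h0
    obtain ⟨δ, -, hδ⟩ := h.pr_two he hw o m m'
    obtain ⟨u, hu⟩ : ∃ u : Fin 3 → Fin (n + 3) → ℂ[X], u = ![fun j => C ((Pi.single o 1 : Fin (n + 3) → ℂ) j), gf (G m) x, gf (G m') x] := ⟨_, rfl⟩
    rw [← hu] at hδ
    have hD : (D3 u (fun l => gf (F l) x)).eval 0 ≠ 0 := by
      have h1 := D3_map (evalRingHom 0) u fun l => gf (F l) x
      have h2 : (fun i j => (evalRingHom 0) (u i j)) = ![Pi.single o 1, gp (G m) fun i => (x i).eval 0, gp (G m') fun i => (x i).eval 0] := by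
        funext i j
        rw [hu]
        fin_cases i
        · show (evalRingHom 0) (C ((Pi.single o 1 : Fin (n + 3) → ℂ) j)) = (Pi.single o 1 : Fin (n + 3) → ℂ) j
          simp
        · exact gf_eval _ _ _ _
        · exact gf_eval _ _ _ _
      have h3 : (fun (i : Fin n) j => (evalRingHom 0) (gf (F i) x j)) = fun l => gp (F l) fun i => (x i).eval 0 := by
        funext i j
        exact gf_eval _ _ _ _
      rw [h2, h3] at h1
      rw [← coe_evalRingHom, ← h1]
      exact ho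
    have hnX : ∀ q : ℂ[X], q.eval 0 ≠ 0 → ¬ (X : ℂ[X]) ∣ q := by
      intro q hq hd
      rw [X_dvd_iff, coeff_zero_eq_eval_zero] at hd
      exact hq hd
    obtain ⟨Y, hY⟩ := h.exists_JJ hr 0
    have h1 := DD_mul (fun i l => (hw i).2.1 l) u Y
    rw [hδ, hμ] at h1
    have hdv : (X : ℂ[X]) ^ (k m + k m') ∣ JJ F x Y * D3 u (fun l => gf (F l) x) * μ := by
      rw [show JJ F x Y * D3 u (fun l => gf (F l) x) * μ = μ * JJ F x Y * D3 u (fun l => gf (F l) x) by ring, h1]
      exact ((Dvd.intro_left (C (c m * c m')) rfl).mul_right _).mul_right _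
    have hnX' : ¬ (X : ℂ[X]) ∣ JJ F x Y * D3 u (fun l => gf (F l) x) := hnX _ (by
      rw [eval_mul]
      exact mul_ne_zero hY hD)
    have hdv' : (X : ℂ[X]) ^ (k m + k m') ∣ μ := by
      rcases Nat.eq_zero_or_pos (k m + k m') with h0 | h0
      · rw [h0, pow_zero]
        exact one_dvd _
      · exact prime_X.pow_dvd_of_dvd_mul_left _ hnX' hdv
    have h2 := natDegree_le_of_dvd hdv' hμ0
    rwa [natDegree_X_pow] at h2

/-- the degree -/
theorem CrvV.top_two (h : CrvV a d k c F G x M) {w : Fin 3 → Fin (n + 3) → ℂ[X]} {e : Fin 3 → ℕ} (he : ∀ i, M ≤ e i)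
    (hw : ∀ i, LogV F G x M (e i) (w i)) {μ : ℂ[X]} (hμ : ∀ Y, DD w Y = μ * JJ F x Y) (hμ0 : μ ≠ 0) {m m' : Fin r} (hmm' : m ≠ m') :
    μ.natDegree + (d m + d m') * M + ∑ l, (a l - 1) * M ≤ e 0 + e 1 + e 2 + k m + k m' := by
  obtain ⟨Y, hY, hY0⟩ := h.exists_JJ_top
  obtain ⟨A, hA⟩ : ∃ A, A = ∑ l, (a l - 1) * M := ⟨_, rfl⟩
  rw [← hA] at hY ⊢
  have hdeg : (DD w Y).natDegree = μ.natDegree + A := by rw [hμ, natDegree_mul hμ0 hY0, hY]
  by_cases hk : k m = d m * M ∧ k m' = d m' * M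
  · have h1 : (DD w Y).natDegree ≤ e 0 + e 1 + e 2 := by
      have h2 := (det_top (rows w (cst Y)) (Sum.elim e fun _ => 0) (fun i j => by
        rcases i with i | l
        · exact (hw i).1 _
        · show (C (Y l _)).natDegree ≤ 0
          rw [natDegree_C])).1
      rw [Fintype.sum_sum_type, Fin.sum_univ_three] at h2
      simp only [Sum.elim_inl, Sum.elim_inr, Finset.sum_const_zero, add_zero] at h2
      exact h2
    have : (d m + d m') * M = k m + k m' := by rw [hk.1, hk.2]; ring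
    omega
  · have hm : ∀ m, k m ≠ d m * M → MvPolynomial.eval (fun i => (x i).coeff M) (G m) = 0 := by
      intro m hm
      rw [← (coeff_top h.deg (h.hom m)).2, h.eq m, coeff_C_mul, coeff_X_pow, if_neg (Ne.symm hm), mul_zero]
    have h0 : MvPolynomial.eval (fun i => (x i).coeff M) (G m) = 0 ∨ MvPolynomial.eval (fun i => (x i).coeff M) (G m') = 0 := by
      by_cases h0 : k m = d m * M
      · exact Or.inr (hm m' fun h1 => hk ⟨h0, h1⟩)
      · exact Or.inl (hm m h0)
    obtain ⟨o, ho⟩ := h.exists_o hmm' h.topne h.top_onV h0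
    obtain ⟨δ, hδd, hδ⟩ := h.pr_two he hw o m m'
    obtain ⟨u, hu⟩ : ∃ u : Fin 3 → Fin (n + 3) → ℂ[X], u = ![fun j => C ((Pi.single o 1 : Fin (n + 3) → ℂ) j), gf (G m) x, gf (G m') x] := ⟨_, rfl⟩
    rw [← hu] at hδ
    have hjF := fun (l : Fin n) j => coeff_top h.deg ((h.homF l).pderiv (i := j))
    have hjG := fun (m : Fin r) j => coeff_top h.deg ((h.hom m).pderiv (i := j))
    have h2 := det_top (rows u (fun l => gf (F l) x)) (Sum.elim ![0, (d m - 1) * M, (d m' - 1) * M] fun l => (a l - 1) * M) (fun i j => by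
      rcases i with i | l
      · rw [hu]
        fin_cases i
        · show (C _).natDegree ≤ 0
          rw [natDegree_C]
        · exact (hjG m _).1
        · exact (hjG m' _).1
      · exact (hjF l _).1)
    have hsum : ∑ s, (Sum.elim ![0, (d m - 1) * M, (d m' - 1) * M] fun l => (a l - 1) * M) s = (d m - 1) * M + (d m' - 1) * M + A := by
      rw [Fintype.sum_sum_type, Fin.sum_univ_three, hA]
      simp
    have hB : (d m - 1) * M + (d m' - 1) * M + A ≤ (D3 u (fun l => gf (F l) x)).natDegree := by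
      refine le_natDegree_of_ne_zero ?_
      rw [← hsum]
      show (rows u (fun l => gf (F l) x)).det.coeff _ ≠ 0
      rw [h2.2]
      have h3 : (Matrix.of fun i j => ((rows u (fun l => gf (F l) x)) i j).coeff ((Sum.elim ![0, (d m - 1) * M, (d m' - 1) * M] fun l => (a l - 1) * M) i)) =
          rows ![Pi.single o 1, gp (G m) fun i => (x i).coeff M, gp (G m') fun i => (x i).coeff M] (fun l => gp (F l) fun i => (x i).coeff M) := by
        ext i j
        rcases i with i | l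
        · rw [hu]
          fin_cases i
          · show (C ((Pi.single o 1 : Fin (n + 3) → ℂ) ((eq3 n).symm j))).coeff 0 = (Pi.single o 1 : Fin (n + 3) → ℂ) ((eq3 n).symm j)
            rw [coeff_C_zero]
          · exact (hjG m _).2
          · exact (hjG m' _).2
        · exact (hjF l _).2
      rw [h3]
      exact ho
    have hD0 : D3 u (fun l => gf (F l) x) ≠ 0 := by
      intro h0
      have h3 := h2.2
      have h4 : (rows u (fun l => gf (F l) x)).det = 0 := h0
      rw [h4, coeff_zero] at h3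
      have h5 : (Matrix.of fun i j => ((rows u (fun l => gf (F l) x)) i j).coeff ((Sum.elim ![0, (d m - 1) * M, (d m' - 1) * M] fun l => (a l - 1) * M) i)) =
          rows ![Pi.single o 1, gp (G m) fun i => (x i).coeff M, gp (G m') fun i => (x i).coeff M] (fun l => gp (F l) fun i => (x i).coeff M) := by
        ext i j
        rcases i with i | l
        · rw [hu]
          fin_cases i
          · show (C ((Pi.single o 1 : Fin (n + 3) → ℂ) ((eq3 n).symm j))).coeff 0 = (Pi.single o 1 : Fin (n + 3) → ℂ) ((eq3 n).symm j)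
            rw [coeff_C_zero]
          · exact (hjG m _).2
          · exact (hjG m' _).2
        · exact (hjF l _).2
      rw [h5] at h3
      exact ho h3.symm
    have h4 := DD_mul (fun i l => (hw i).2.1 l) u Y
    have hDD0 : DD w Y ≠ 0 := by
      rw [hμ]
      exact mul_ne_zero hμ0 hY0
    have h5 : (DD w Y).natDegree + (D3 u (fun l => gf (F l) x)).natDegree ≤ (k m + k m') + (e 0 + e 1 + e 2 - 2 * M) + A := by
      rw [← natDegree_mul hDD0 hD0, h4, hδ]
      exact natDegree_mul_le_of_le (natDegree_mul_le_of_le (natDegree_C_mul_X_pow_le _ _) hδd) hY.le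
    have e0 : (d m - 1) * M + M = d m * M := by
      obtain ⟨n, hn⟩ := Nat.exists_eq_add_of_le' (h.pos m)
      rw [hn]
      simp only [Nat.add_sub_cancel]
      ring
    have e1 : (d m' - 1) * M + M = d m' * M := by
      obtain ⟨n, hn⟩ := Nat.exists_eq_add_of_le' (h.pos m')
      rw [hn]
      simp only [Nat.add_sub_cancel]
      ring
    have e2 : (d m + d m') * M = d m * M + d m' * M := by ring
    have c0 := he 0
    have c1 := he 1
    omega

end Pool.Agent.GKV
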