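import Pool.Agent.GKV.Mu
import Pool.Agent.GKR.Lem

/-!
# GKV Rank: three logarithmic vectors of small total weight have rank at most two
-/

set_option autoImplicit false

open Polynomial
open Pool.Agent.TC (det3)
open Pool.Agent.GKR (exists_pair sum_pair)

namespace Pool.Agent.GKV

variable {n r : ℕ} {a : Fin n → ℕ} {d k : Fin r → ℕ} {c : Fin r → ℂ} {F : Fin n → MvPolynomial (Fin (n + 3)) ℂ}
  {G : Fin r → MvPolynomial (Fin (n + 3)) ℂ} {x : Fin (n + 3) → ℂ[X]} {M : ℕ}

theorem CrvV.mu_zero (h : CrvV a d k c F G x M) (hr : 2 ≤ r) {w : Fin 3 → Fin (n + 3) → ℂ[X]} {e : Fin 3 → ℕ} (he : ∀ i, M ≤ e i)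
    (hlt : e 0 + e 1 + e 2 < (∑ m, d m) * M + ∑ l, (a l - 1) * M) (hw : ∀ i, LogV F G x M (e i) (w i)) {μ : ℂ[X]}
    (hμ : ∀ Y, DD w Y = μ * JJ F x Y) : μ = 0 := by
  by_contra hμ0
  -- the order at `0`
  have hlow : ∑ m, k m ≤ μ.natDegree := by
    have hm : ∀ m, k m ≠ 0 → MvPolynomial.eval (fun i => (x i).eval 0) (G m) = 0 := by
      intro m hm
      rw [← eval_aeval, h.eq m, eval_mul, eval_pow, eval_X, zero_pow hm, mul_zero]
    obtain ⟨m, m', hmn, hP⟩ := exists_pair hr (P := fun m => k m ≠ 0) fun l m m' hlm hln hmn hl hm' hn =>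
      h.gen.no_triple h.homF h.hom hlm hln hmn (h.ptne (by omega) 0) (h.onV 0) (h.smooth _ (h.ptne (by omega) 0) (h.onV 0)) ⟨hm l hl, hm m hm', hm m' hn⟩
    rw [sum_pair hmn fun l hl hl' => by
      by_contra h0
      rcases hP l h0 with h1 | h1
      · exact hl h1
      · exact hl' h1]
    exact h.low_two (by omega) he hw hμ hμ0 hmn
  -- the degree
  have htop : μ.natDegree + (∑ m, d m) * M + ∑ l, (a l - 1) * M ≤ e 0 + e 1 + e 2 + ∑ m, k m := by
    have hm : ∀ m, k m ≠ d m * M → MvPolynomial.eval (fun i => (x i).coeff M) (G m) = 0 := by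
      intro m hm
      rw [← (coeff_top h.deg (h.hom m)).2, h.eq m, coeff_C_mul, coeff_X_pow, if_neg (Ne.symm hm), mul_zero]
    obtain ⟨m, m', hmn, hP⟩ := exists_pair hr (P := fun m => k m ≠ d m * M) fun l m m' hlm hln hmn hl hm' hn =>
      h.gen.no_triple h.homF h.hom hlm hln hmn h.topne h.top_onV (h.smooth _ h.topne h.top_onV) ⟨hm l hl, hm m hm', hm m' hn⟩
    have h1 := h.top_two he hw hμ hμ0 hmn
    have h2 : ∑ l, (d l * M - k l) = (d m * M - k m) + (d m' * M - k m') := sum_pair hmn fun l hl hl' => by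
      have h3 : k l = d l * M := by
        by_contra h0
        rcases hP l h0 with h1 | h1
        · exact hl h1
        · exact hl' h1
      rw [h3, Nat.sub_self]
    have h3 : ∑ l, (d l * M - k l) + ∑ l, k l = (∑ l, d l) * M := by
      rw [← Finset.sum_add_distrib, Finset.sum_mul]
      exact Finset.sum_congr rfl fun l _ => Nat.sub_add_cancel (h.kle l)
    have h4 := h.kle m
    have h5 := h.kle m'
    have h6 : (d m + d m') * M = d m * M + d m' * M := by ring
    omega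
  omega

theorem CrvV.minor_zero (h : CrvV a d k c F G x M) (hr : 2 ≤ r) {w : Fin 3 → Fin (n + 3) → ℂ[X]} {e : Fin 3 → ℕ} (he : ∀ i, M ≤ e i)
    (hlt : e 0 + e 1 + e 2 < (∑ m, d m) * M + ∑ l, (a l - 1) * M) (hw : ∀ i, LogV F G x M (e i) (w i)) (s : Fin 3 → Fin (n + 3)) :
    det3 (fun q => w 0 (s q)) (fun q => w 1 (s q)) (fun q => w 2 (s q)) = 0 := by
  obtain ⟨μ, hμ⟩ := h.exists_mu (by omega) fun i l => (hw i).2.1 l
  have hμ0 := h.mu_zero hr he hlt hw hμ
  obtain ⟨Y, -, hY0⟩ := h.exists_JJ_top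
  have h1 := DD_mul (fun i l => (hw i).2.1 l) (fun q j => C ((Pi.single (s q) 1 : Fin (n + 3) → ℂ) j)) Y
  rw [hμ, hμ0, zero_mul, zero_mul] at h1
  have h2 := (mul_eq_zero.1 h1.symm).resolve_right hY0
  have h3 : pr w (fun q j => C ((Pi.single (s q) 1 : Fin (n + 3) → ℂ) j)) = Matrix.of fun i q => w i (s q) := by
    refine Matrix.ext fun i q => ?_
    show ∑ j, w i j * C ((Pi.single (s q) 1 : Fin (n + 3) → ℂ) j) = w i (s q)
    rw [Finset.sum_eq_single (s q)]
    · rw [Pi.single_eq_same, C_1, mul_one]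
    · intro b _ hb
      rw [Pi.single_eq_of_ne hb, C_0, mul_zero]
    · intro hj
      exact absurd (Finset.mem_univ _) hj
  rw [h3, Matrix.det_fin_three] at h2
  simp only [Matrix.of_apply] at h2
  unfold det3
  linear_combination h2

end Pool.Agent.GKV
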